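import Pool.Agent.Helper10.K3.SysDefs

/-!
# Module E of MP_ed3816_nt : the involution near the curve `R = Q + T`
-/

namespace KumWA

open Classical

variable {p : ℕ} [hp : Fact p.Prime]

section norms

theorem sinv_pos : (0 : ℝ) < (p : ℝ)⁻¹ := inv_pos.2 (p_pos (p := p))

theorem sinv_lt : (p : ℝ)⁻¹ < 1 := inv_lt_one_of_one_lt₀ (one_lt_p (p := p))

/-- discreteness -/
theorem le_of_lt_one {a : ℚ_[p]} (h : ‖a‖ < 1) : ‖a‖ ≤ (p : ℝ)⁻¹ := by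
  have := (Padic.norm_lt_pow_iff_norm_le_pow_sub_one a 0).1 (by simpa using h)
  simpa using this

theorem spow_le {k m : ℕ} (h : m ≤ k) : (p : ℝ)⁻¹ ^ k ≤ (p : ℝ)⁻¹ ^ m :=
  pow_le_pow_of_le_one (sinv_pos (p := p)).le (sinv_lt (p := p)).le h

theorem spow_lt {k m : ℕ} (h : m < k) : (p : ℝ)⁻¹ ^ k < (p : ℝ)⁻¹ ^ m :=
  pow_lt_pow_right_of_lt_one₀ (sinv_pos (p := p)) (sinv_lt (p := p)) h

/-- (C1) -/
theorem close1 {d : ℚ_[p]} (hd2 : ‖d‖ = (p : ℝ)⁻¹ ^ 2) {P F : E d} (hP : P ≠ 0)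
    (hx : ‖xc P‖ ≤ (p : ℝ)⁻¹ ^ 2) (hy : ‖yc P‖ ≤ (p : ℝ)⁻¹ ^ 3) (hF : fil 0 F) :
    P + F ≠ 0 ∧ ‖xc (P + F) - xc P‖ ≤ (p : ℝ)⁻¹ ^ 3 ∧ ‖yc (P + F) - yc P‖ ≤ (p : ℝ)⁻¹ ^ 4 := by
  by_cases hF0 : F = 0
  · rw [hF0, add_zero, sub_self, sub_self, norm_zero]
    have := sinv_pos (p := p)
    exact ⟨hP, by positivity, by positivity⟩
  have hok : okl d 0 := by
    refine ⟨?_, Or.inr ?_⟩
    · rw [hd2]; exact pow_le_one₀ (sinv_pos (p := p)).le (sinv_lt (p := p)).le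
    · rw [hd2]
      have := spow_le (p := p) (k := 2) (m := 1) (by norm_num)
      rwa [pow_one] at this
  obtain ⟨f1, f2, f3, f4⟩ := fil_props hok hF hF0
  have hX1 : 1 ≤ ‖xc F‖ := by
    have := hF.resolve_left hF0
    rwa [mul_zero, pow_zero] at this
  have hY2 := norm_yc_sq f1
  set X := xc F with hX
  set Y := yc F with hY
  have hs := sinv_pos (p := p)
  have hs1 := sinv_lt (p := p)
  have hsp := fun {k m : ℕ} (h : m ≤ k) => spow_le (p := p) h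
  set s : ℝ := (p : ℝ)⁻¹ with hsdef
  have hXp : 0 < ‖X‖ := norm_pos_iff.2 f2
  have hYp : 0 < ‖Y‖ := norm_pos_iff.2 f3
  have hXY : ‖X‖ ≤ ‖Y‖ := by
    apply le_of_sq_le_sq _ hYp.le
    rw [hY2]
    exact pow_le_pow_right₀ hX1 (by norm_num)
  have hYX : ‖Y‖ ≤ ‖X‖ ^ 2 := by
    apply le_of_sq_le_sq _ (by positivity)
    rw [hY2, ← pow_mul]
    exact pow_le_pow_right₀ hX1 (by norm_num)
  have hxX1 : ‖xc P‖ < ‖X‖ := by
    refine lt_of_le_of_lt hx (lt_of_lt_of_le ?_ hX1)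
    exact pow_lt_one₀ hs.le hs1 two_ne_zero
  have hne : xc P ≠ X := by
    intro h
    rw [h] at hxX1
    exact lt_irrefl _ hxX1
  obtain ⟨g1, g2⟩ := xc_add_mul hP hF0 hne
  refine ⟨g1, ?_⟩
  have hsub : ‖xc P - X‖ = ‖X‖ := nsub_eq' hxX1
  set x := xc P with hx'
  set y := yc P with hy'
  have hxd : (xc (P + F) - x) * (x - X) ^ 2 =
      3 * (x ^ 2 * X) + 2 * (d ^ 2 * (x + X)) + 8 * (d * x * X) - 2 * (y * Y) - x ^ 3 := by
    linear_combination g2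
  have hxX : ‖x + X‖ ≤ ‖X‖ := nadd_le hxX1.le le_rfl
  have hXX : ‖X‖ ≤ ‖X‖ ^ 2 := le_self_pow₀ hX1 two_ne_zero
  have hXXX : ‖X‖ ^ 2 ≤ ‖X‖ ^ 3 := pow_le_pow_right₀ hX1 (by norm_num)
  have hX3 : ‖X‖ ≤ ‖X‖ ^ 3 := hXX.trans hXXX
  have hs4 : s ^ 4 = (s ^ 2) ^ 2 := by ring
  -- numerators
  have m1 : ‖3 * (x ^ 2 * X)‖ ≤ s ^ 4 * ‖X‖ := by
    refine (norm_nat_mul_le 3 _).trans ?_
    rw [norm_mul, norm_pow, hs4]; gcongr
  have m2 : ‖2 * (d ^ 2 * (x + X))‖ ≤ s ^ 4 * ‖X‖ := by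
    refine (norm_nat_mul_le 2 _).trans ?_
    rw [norm_mul, norm_pow, hd2, hs4]
    gcongr
  have m3 : ‖8 * (d * x * X)‖ ≤ s ^ 4 * ‖X‖ := by
    refine (norm_nat_mul_le 8 _).trans ?_
    rw [norm_mul, norm_mul, hd2, hs4, sq (s ^ 2)]; gcongr
  have m5 : ‖x ^ 3‖ ≤ s ^ 4 * ‖X‖ := by
    rw [norm_pow]
    calc ‖x‖ ^ 3 ≤ (s ^ 2) ^ 3 := by gcongr
      _ = s ^ 6 * 1 := by ring
      _ ≤ s ^ 4 * ‖X‖ := by
        have := hsp (k := 6) (m := 4) (by norm_num)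
        gcongr
  have m123 : ‖3 * (x ^ 2 * X) + 2 * (d ^ 2 * (x + X)) + 8 * (d * x * X)‖ ≤ s ^ 4 * ‖X‖ :=
    nadd_le (nadd_le m1 m2) m3
  have hbig : s ^ 4 * ‖X‖ ≤ s ^ 3 * ‖X‖ ^ 2 := by
    have := hsp (k := 4) (m := 3) (by norm_num)
    gcongr
  have m4 : ‖2 * (y * Y)‖ ≤ s ^ 3 * ‖X‖ ^ 2 := by
    refine (norm_nat_mul_le 2 _).trans ?_
    rw [norm_mul]
    gcongr
  have hNx : ‖3 * (x ^ 2 * X) + 2 * (d ^ 2 * (x + X)) + 8 * (d * x * X) - 2 * (y * Y) - x ^ 3‖ ≤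
      s ^ 3 * ‖X‖ ^ 2 := nsub_le (nsub_le (m123.trans hbig) m4) (m5.trans hbig)
  constructor
  · have : ‖xc (P + F) - x‖ * ‖X‖ ^ 2 ≤ s ^ 3 * ‖X‖ ^ 2 := by
      rw [← hsub, ← norm_pow, ← norm_mul, hxd]
      rw [norm_pow, hsub]
      exact hNx
    exact le_of_mul_le_mul_right this (by positivity)
  -- y-coordinate
  · obtain ⟨L, c, l1, l2, l3, -, -, -⟩ := line_add hP hF0 g1
    have hL : L * (x - X) = y - Y := by linear_combination l2 - l1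
    have hyd : (yc (P + F) - y) * (x - X) ^ 3 =
        - 2 * y * (x - X) ^ 3 - (y - Y) * (3 * (x ^ 2 * X) + 2 * (d ^ 2 * (x + X))
          + 8 * (d * x * X) - 2 * (y * Y) - x ^ 3) := by
      have e1 : yc (P + F) = - y - L * (xc (P + F) - x) := by
        linear_combination l3 + l1
      rw [e1, ← hxd, ← hL]; ring
    have eF := curve_eq F
    have hyd2 : (yc (P + F) - y) * (x - X) ^ 3 =
        Y * (3 * (x ^ 2 * X) + 2 * (d ^ 2 * (x + X)) + 8 * (d * x * X) - x ^ 3)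
        - y * (3 * (x ^ 2 * X) + 2 * (d ^ 2 * (x + X)) + 8 * (d * x * X) - 2 * (y * Y) - x ^ 3)
        - 8 * (y * d * X ^ 2) - 4 * (y * d ^ 2 * X) - 6 * (y * x * X ^ 2) + 6 * (y * x ^ 2 * X)
        - 2 * (y * x ^ 3) := by
      rw [hyd]
      linear_combination (- 2 * y) * eF
    have n1 : ‖Y * (3 * (x ^ 2 * X) + 2 * (d ^ 2 * (x + X)) + 8 * (d * x * X) - x ^ 3)‖ ≤
        s ^ 4 * ‖X‖ ^ 3 := by
      rw [norm_mul]
      have h1 : ‖3 * (x ^ 2 * X) + 2 * (d ^ 2 * (x + X)) + 8 * (d * x * X) - x ^ 3‖ ≤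
          s ^ 4 * ‖X‖ := nsub_le m123 m5
      calc ‖Y‖ * ‖3 * (x ^ 2 * X) + 2 * (d ^ 2 * (x + X)) + 8 * (d * x * X) - x ^ 3‖
          ≤ ‖X‖ ^ 2 * (s ^ 4 * ‖X‖) := by gcongr
        _ = s ^ 4 * ‖X‖ ^ 3 := by ring
    have n2 : ‖y * (3 * (x ^ 2 * X) + 2 * (d ^ 2 * (x + X)) + 8 * (d * x * X) - 2 * (y * Y)
        - x ^ 3)‖ ≤ s ^ 4 * ‖X‖ ^ 3 := by
      rw [norm_mul]
      calc ‖y‖ * ‖3 * (x ^ 2 * X) + 2 * (d ^ 2 * (x + X)) + 8 * (d * x * X) - 2 * (y * Y) - x ^ 3‖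
          ≤ s ^ 3 * (s ^ 3 * ‖X‖ ^ 2) := by gcongr
        _ = s ^ 6 * ‖X‖ ^ 2 := by ring
        _ ≤ s ^ 4 * ‖X‖ ^ 3 := by
          have := hsp (k := 6) (m := 4) (by norm_num)
          gcongr
    have n3 : ‖8 * (y * d * X ^ 2)‖ ≤ s ^ 4 * ‖X‖ ^ 3 := by
      refine (norm_nat_mul_le 8 _).trans ?_
      rw [norm_mul, norm_mul, norm_pow, hd2]
      calc ‖y‖ * s ^ 2 * ‖X‖ ^ 2 ≤ s ^ 3 * s ^ 2 * ‖X‖ ^ 2 := by gcongr
        _ = s ^ 5 * ‖X‖ ^ 2 := by ring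
        _ ≤ s ^ 4 * ‖X‖ ^ 3 := by
          have := hsp (k := 5) (m := 4) (by norm_num)
          gcongr
    have n4 : ‖4 * (y * d ^ 2 * X)‖ ≤ s ^ 4 * ‖X‖ ^ 3 := by
      refine (norm_nat_mul_le 4 _).trans ?_
      rw [norm_mul, norm_mul, norm_pow, hd2]
      calc ‖y‖ * (s ^ 2) ^ 2 * ‖X‖ ≤ s ^ 3 * (s ^ 2) ^ 2 * ‖X‖ := by gcongr
        _ = s ^ 7 * ‖X‖ := by ring
        _ ≤ s ^ 4 * ‖X‖ ^ 3 := by
          have := hsp (k := 7) (m := 4) (by norm_num)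
          gcongr
    have n5 : ‖6 * (y * x * X ^ 2)‖ ≤ s ^ 4 * ‖X‖ ^ 3 := by
      refine (norm_nat_mul_le 6 _).trans ?_
      rw [norm_mul, norm_mul, norm_pow]
      calc ‖y‖ * ‖x‖ * ‖X‖ ^ 2 ≤ s ^ 3 * s ^ 2 * ‖X‖ ^ 2 := by gcongr
        _ = s ^ 5 * ‖X‖ ^ 2 := by ring
        _ ≤ s ^ 4 * ‖X‖ ^ 3 := by
          have := hsp (k := 5) (m := 4) (by norm_num)
          gcongr
    have n6 : ‖6 * (y * x ^ 2 * X)‖ ≤ s ^ 4 * ‖X‖ ^ 3 := by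
      refine (norm_nat_mul_le 6 _).trans ?_
      rw [norm_mul, norm_mul, norm_pow]
      calc ‖y‖ * ‖x‖ ^ 2 * ‖X‖ ≤ s ^ 3 * (s ^ 2) ^ 2 * ‖X‖ := by gcongr
        _ = s ^ 7 * ‖X‖ := by ring
        _ ≤ s ^ 4 * ‖X‖ ^ 3 := by
          have := hsp (k := 7) (m := 4) (by norm_num)
          gcongr
    have n7 : ‖2 * (y * x ^ 3)‖ ≤ s ^ 4 * ‖X‖ ^ 3 := by
      refine (norm_nat_mul_le 2 _).trans ?_
      rw [norm_mul, norm_pow]
      calc ‖y‖ * ‖x‖ ^ 3 ≤ s ^ 3 * (s ^ 2) ^ 3 := by gcongr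
        _ = s ^ 9 * 1 := by ring
        _ ≤ s ^ 4 * ‖X‖ ^ 3 := by
          have := hsp (k := 9) (m := 4) (by norm_num)
          have h1 : 1 ≤ ‖X‖ ^ 3 := one_le_pow₀ hX1
          gcongr
    have h1 : ‖yc (P + F) - y‖ * ‖X‖ ^ 3 ≤ s ^ 4 * ‖X‖ ^ 3 := by
      have h2 : ‖(yc (P + F) - y) * (x - X) ^ 3‖ ≤ s ^ 4 * ‖X‖ ^ 3 := by
        rw [hyd2]
        exact nsub_le (nadd_le (nsub_le (nsub_le (nsub_le (nsub_le n1 n2) n3) n4) n5) n6) n7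
      rwa [norm_mul, norm_pow, hsub] at h2
    exact le_of_mul_le_mul_right h1 (by positivity)

/-- (C2) -/
theorem close2 (h2 : p ≠ 2) {d : ℚ_[p]} (hd2 : ‖d‖ = (p : ℝ)⁻¹ ^ 2) {P P' : E d} (hP : P ≠ 0)
    (hP' : P' ≠ 0) (hx : ‖xc P‖ ≤ (p : ℝ)⁻¹ ^ 2) (hy : ‖yc P‖ = (p : ℝ)⁻¹ ^ 3)
    (hx' : ‖xc P' - xc P‖ ≤ (p : ℝ)⁻¹ ^ 3) (hy' : ‖yc P' - yc P‖ ≤ (p : ℝ)⁻¹ ^ 4) :
    fil 0 (P' - P) := by
  have hs := sinv_pos (p := p)
  have hs1 := sinv_lt (p := p)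
  have h43 := spow_lt (p := p) (k := 4) (m := 3) (by norm_num)
  have h76 := spow_lt (p := p) (k := 7) (m := 6) (by norm_num)
  have h32 := spow_le (p := p) (k := 3) (m := 2) (by norm_num)
  set s : ℝ := (p : ℝ)⁻¹ with hsdef
  by_cases hxx : xc P' = xc P
  · rcases (xc_eq_iff hP' hP).1 hxx with h | h
    · left; rw [h, sub_self]
    · exfalso
      rw [h, yc_neg] at hy'
      have : -yc P - yc P = -(2 * yc P) := by ring
      rw [this, norm_neg, norm_mul, norm_two h2, one_mul, hy] at hy'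
      exact absurd h43 (not_lt.2 hy')
  · obtain ⟨h3, h4⟩ := xc_sub_mul hP' hP hxx
    right
    rw [mul_zero, pow_zero]
    have hBx' : ‖xc P'‖ ≤ s ^ 2 := by
      have : xc P' = (xc P' - xc P) + xc P := by ring
      rw [this]
      exact nadd_le (hx'.trans h32) hx
    have e := curve_eq P
    have key : (xc P' * xc P + 2 * d ^ 2) * (xc P' + xc P) + 8 * d * (xc P' * xc P) +
        2 * yc P' * yc P - 4 * yc P ^ 2 =
        (xc P' - xc P) * (xc P * (xc P' + xc P) + xc P ^ 2 + 2 * d ^ 2 + 8 * (d * xc P)) +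
          2 * (yc P * (yc P' - yc P)) := by
      linear_combination (-2) * e
    have hs4 : s ^ 4 = (s ^ 2) ^ 2 := by ring
    have hclose : ‖(xc P' * xc P + 2 * d ^ 2) * (xc P' + xc P) + 8 * d * (xc P' * xc P) +
        2 * yc P' * yc P - 4 * yc P ^ 2‖ < ‖4 * yc P ^ 2‖ := by
      rw [key, norm_mul 4, norm_four h2, one_mul, norm_pow, hy]
      have e6 : (s ^ 3) ^ 2 = s ^ 6 := by ring
      rw [e6]
      apply nadd_lt
      · rw [norm_mul]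
        have hb : ‖xc P * (xc P' + xc P) + xc P ^ 2 + 2 * d ^ 2 + 8 * (d * xc P)‖ ≤ s ^ 4 := by
          have b1 : ‖xc P * (xc P' + xc P)‖ ≤ s ^ 4 := by
            rw [norm_mul, hs4, sq (s ^ 2)]
            exact mul_le_mul hx (nadd_le hBx' hx) (norm_nonneg _) (by positivity)
          have b2 : ‖xc P ^ 2‖ ≤ s ^ 4 := by
            rw [norm_pow, hs4]; exact pow_le_pow_left₀ (norm_nonneg _) hx 2
          have b3 : ‖2 * d ^ 2‖ ≤ s ^ 4 := by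
            refine (norm_nat_mul_le 2 _).trans ?_
            rw [norm_pow, hs4, hd2]
          have b4 : ‖8 * (d * xc P)‖ ≤ s ^ 4 := by
            refine (norm_nat_mul_le 8 _).trans ?_
            rw [norm_mul, hs4, sq (s ^ 2), hd2]
            gcongr
          exact nadd_le (nadd_le (nadd_le b1 b2) b3) b4
        calc ‖xc P' - xc P‖ * ‖xc P * (xc P' + xc P) + xc P ^ 2 + 2 * d ^ 2 + 8 * (d * xc P)‖
            ≤ s ^ 3 * s ^ 4 := by gcongr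
          _ = s ^ 7 := by ring
          _ < s ^ 6 := h76
      · refine lt_of_le_of_lt (norm_nat_mul_le 2 _) ?_
        rw [norm_mul, hy]
        calc s ^ 3 * ‖yc P' - yc P‖ ≤ s ^ 3 * s ^ 4 := by gcongr
          _ = s ^ 7 := by ring
          _ < s ^ 6 := h76
    have hnorm := neq_of_sub_lt hclose
    rw [← h4, norm_mul, norm_mul, norm_four h2, one_mul, norm_pow, norm_pow, hy] at hnorm
    have hxp : 0 < ‖xc P' - xc P‖ := norm_pos_iff.2 (sub_ne_zero.2 hxx)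
    have h6 : ‖xc P' - xc P‖ ^ 2 ≤ (s ^ 3) ^ 2 := pow_le_pow_left₀ (norm_nonneg _) hx' 2
    rw [← hnorm] at h6
    have h7 : 1 * ‖xc P' - xc P‖ ^ 2 ≤ ‖xc (P' - P)‖ * ‖xc P' - xc P‖ ^ 2 := by
      rw [one_mul]; exact h6
    exact le_of_mul_le_mul_right h7 (by positivity)

end norms

/-! ### residues -/

theorem res_div {x y : ℚ_[p]} (hx : ‖x‖ ≤ 1) (hy : ‖y‖ = 1) :
    ‖x / y‖ ≤ 1 ∧ res (x / y) = res x / res y := by
  have h1 : ‖x / y‖ ≤ 1 := by rw [norm_div, hy, div_one]; exact hx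
  refine ⟨h1, ?_⟩
  have hy0 : y ≠ 0 := by
    rintro rfl
    rw [norm_zero] at hy
    exact zero_ne_one hy
  have hr : res y ≠ 0 := (res_ne_zero hy.le).2 hy
  rw [eq_div_iff hr, ← res_mul h1 hy.le, div_mul_cancel₀ _ hy0]

theorem zgg_ne (h8 : p % 8 = 5) (a : ZMod p) : gg a ≠ 0 := by
  intro h
  apply zmod_two_nonsq h8
  refine ⟨a + 2, ?_⟩
  unfold gg at h
  linear_combination -h

theorem res_gg {x : ℚ_[p]} (hx : ‖x‖ ≤ 1) : ‖gg x‖ ≤ 1 ∧ res (gg x) = gg (res x) := by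
  have h2 := norm_pow_le_one hx 2
  have h4 : ‖(4 : ℚ_[p])‖ ≤ 1 := norm_ofNat_le_one 4
  have h2' : ‖(2 : ℚ_[p])‖ ≤ 1 := norm_ofNat_le_one 2
  have h4x := norm_mul_le_one h4 hx
  unfold gg
  refine ⟨nadd_le (nadd_le h2 h4x) h2', ?_⟩
  rw [res_add (nadd_le h2 h4x) h2', res_add h2 h4x, res_pow hx, res_mul h4 hx, res_ofNat,
    res_ofNat]

theorem norm_gg (h8 : p % 8 = 5) {x : ℚ_[p]} (hx : ‖x‖ ≤ 1) : ‖gg x‖ = 1 := by
  obtain ⟨h1, h2⟩ := res_gg hx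
  rw [← res_ne_zero h1, h2]
  exact zgg_ne h8 _

/-- the facts on a point with unit normalised `x`-coordinate -/
theorem unit_data (h8 : p % 8 = 5) {d : ℚ_[p]} (hd : nd d) {Q : E d} (hx : ‖xc Q / d‖ = 1) :
    ‖d‖ = (p : ℝ)⁻¹ ^ 2 ∧ ‖xc Q‖ = (p : ℝ)⁻¹ ^ 2 ∧ ‖yc Q‖ = (p : ℝ)⁻¹ ^ 3 ∧ xc Q ≠ 0 ∧
      yc Q ≠ 0 := by
  have hK := kHyp_padic h8
  have hd0 := nd_ne hd
  have hdn : 0 < ‖d‖ := norm_pos_iff.2 hd0
  have hxd : ‖xc Q‖ = ‖d‖ := by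
    rw [norm_div, div_eq_one_iff_eq hdn.ne'] at hx
    exact hx
  have hx0 : xc Q ≠ 0 := by
    rw [← norm_pos_iff, hxd]; exact hdn
  obtain ⟨k, hk⟩ : ∃ k : ℤ, ‖xc Q‖ = (p : ℝ) ^ (2 * k) := by
    rcases hK.xc_cases (P := Q) hd0 with h | h
    · exact norm_of_isSquare hx0 h
    · obtain ⟨k, hk⟩ := norm_of_isSquare (mul_ne_zero two_ne_zero hx0) h
      rw [norm_mul, norm_two (p_ne_two h8), one_mul] at hk
      exact ⟨k, hk⟩
  have hd2 : ‖d‖ = (p : ℝ)⁻¹ ^ 2 := by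
    rcases hd with h | h
    · exfalso
      have hp1 := one_lt_p (p := p)
      rw [hxd, h] at hk
      have e : (p : ℝ) ^ (-1 : ℤ) = (p : ℝ) ^ (2 * k) := by
        rw [← hk, zpow_neg, zpow_one]
      have := zpow_right_injective₀ (p_pos (p := p)) hp1.ne' e
      omega
    · rw [h, inv_pow]
  have hff : ‖ff (xc Q / d)‖ = 1 := by
    rw [ff_eq, norm_mul, hx, norm_gg h8 hx.le, one_mul]
  have hy2 : ‖yc Q‖ ^ 2 = ((p : ℝ)⁻¹ ^ 3) ^ 2 := by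
    rw [← norm_pow, yc_sq_ff hd0, norm_mul, hff, norm_pow, hd2, mul_one]
    ring
  have hs := sinv_pos (p := p)
  have hy : ‖yc Q‖ = (p : ℝ)⁻¹ ^ 3 := by
    exact (sq_eq_sq₀ (norm_nonneg _) (by positivity)).1 hy2
  refine ⟨hd2, by rw [hxd, hd2], hy, hx0, ?_⟩
  rw [← norm_pos_iff, hy]
  positivity

/-- the facts on `Q + T` -/
theorem T_data (h8 : p % 8 = 5) {d : ℚ_[p]} (hd : nd d) {Q : E d} (hx : ‖xc Q / d‖ = 1) :
    Q + T (nd_ne hd) ≠ 0 ∧ xc (Q + T (nd_ne hd)) / d = 2 / (xc Q / d) ∧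
      ‖xc (Q + T (nd_ne hd))‖ = (p : ℝ)⁻¹ ^ 2 ∧ ‖yc (Q + T (nd_ne hd))‖ = (p : ℝ)⁻¹ ^ 3 ∧
      yc Q * yc (Q + T (nd_ne hd)) / d ^ 3 = -2 * gg (xc Q / d) / (xc Q / d) := by
  obtain ⟨hd2, hxn, hyn, hx0, hy0⟩ := unit_data h8 hd hx
  have hd0 := nd_ne hd
  have hQ0 : Q ≠ 0 := ne_zero_of_yc hy0
  have hQT : Q ≠ T (nd_ne hd) := by rintro rfl; exact hx0 (xc_T _)
  obtain ⟨h1, h2, h3, h4⟩ := add_T (nd_ne hd) hQ0 hQT
  have h2n := norm_two (p := p) (p_ne_two h8)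
  have hs := sinv_pos (p := p)
  refine ⟨h1, ?_, ?_, ?_, ?_⟩
  · rw [h3]; field_simp
  · rw [h3, norm_div, norm_mul, norm_pow, h2n, hd2, hxn]
    field_simp
  · rw [h4, norm_div, norm_mul, norm_neg, norm_mul, norm_pow, norm_pow, h2n, hd2, hxn, hyn]
    field_simp
  · have e := yc_sq_gg hd0 Q
    rw [h4]
    have e2 : yc Q * (-(2 * d ^ 2) * yc Q / xc Q ^ 2) / d ^ 3 =
        -(2 * d ^ 2) * yc Q ^ 2 / (xc Q ^ 2 * d ^ 3) := by
      field_simp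
    rw [e2, e]
    field_simp

theorem sig_RQT (h8 : p % 8 = 5) {d : ℚ_[p]} (hd : nd d) (Q R : E d) (c : ℤ)
    (hx : ‖xc Q / d - c‖ < 1) (hc : ¬ (p : ℤ) ∣ c) (hR : fil 0 (R - Q + T (nd_ne hd))) (n : ℕ) :
    ∃ l₀ l' : Loc p, SigL l₀ l' ∧ LNear n l' ⟨d, hd, Q, R⟩ ∧
      ‖xc l₀.Q / l₀.d - ((-c : ℤ) : ℚ_[p])‖ < 1 ∧ fil 0 (l₀.R - l₀.Q + T (nd_ne l₀.hd)) := by
  have h2 := p_ne_two h8
  have hd0 := nd_ne hd
  -- unit
  have hcn : ‖(c : ℚ_[p])‖ = 1 := by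
    have h1 := Padic.norm_int_le_one (p := p) c
    have h3 : ¬ ‖(c : ℚ_[p])‖ < 1 := by
      rw [Padic.norm_intCast_lt_one_iff]; exact hc
    exact le_antisymm h1 (not_lt.1 h3)
  set x := xc Q / d with hxdef
  have hxn : ‖x‖ = 1 := by
    rw [← hcn]; apply neq_of_sub_lt; rw [hcn]; exact hx
  obtain ⟨hd2, hxQ, hyQ, hx0, hy0⟩ := unit_data h8 hd (Q := Q) hxn
  obtain ⟨t1, t2, t3, t4, t5⟩ := T_data h8 hd (Q := Q) hxn
  rw [← hxdef] at t2 t5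
  have hs := sinv_pos (p := p)
  set s : ℝ := (p : ℝ)⁻¹ with hsdef
  have hdn : 0 < ‖d‖ := norm_pos_iff.2 hd0
  -- R = (Q + T) + F
  obtain ⟨F, hFdef⟩ : ∃ F, F = R - Q + T (nd_ne hd) := ⟨_, rfl⟩
  rw [← hFdef] at hR
  have hRF : R = (Q + T (nd_ne hd)) + F := by
    rw [hFdef]
    have : Q + T (nd_ne hd) + (R - Q + T (nd_ne hd)) = R + (T (nd_ne hd) + T (nd_ne hd)) := by
      abel
    rw [this, T_add_T, add_zero]
  obtain ⟨c1, c2, c3⟩ := close1 hd2 t1 t3.le t4.le hR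
  rw [← hRF] at c1 c2 c3
  have hyR : ‖yc R‖ = s ^ 3 := by
    rw [← t4]
    apply neq_of_sub_lt
    rw [t4]
    exact lt_of_le_of_lt c3 (spow_lt (p := p) (by norm_num))
  have hyR0 : yc R ≠ 0 := by
    rw [← norm_pos_iff, hyR]; positivity
  -- the point
  obtain ⟨u, hudef⟩ : ∃ u, u = mkPt hd0 Q R hy0 hyR0 := ⟨_, rfl⟩
  have hrep : Rep u d Q R := by rw [hudef]; exact rep_mkPt hd0 hy0 hyR0
  have hux : u.x = x := by rw [hudef]; rfl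
  have huy : u.y = xc R / d := by rw [hudef]; rfl
  have huz : u.z = yc Q * yc R / d ^ 3 := by rw [hudef]; rfl
  have hxle : ‖x‖ ≤ 1 := hxn.le
  have h2n := norm_two (p := p) h2
  -- residues
  set a := res x with ha
  have ha0 : a ≠ 0 := (res_ne_zero hxle).2 hxn
  obtain ⟨r1, r1'⟩ := res_div (x := (2 : ℚ_[p])) (y := x) h2n.le hxn
  rw [res_ofNat, ← ha] at r1'
  have hyclose : ‖u.y - 2 / x‖ < 1 := by
    rw [huy, ← t2, ← sub_div, norm_div, div_lt_one hdn, hd2]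
    exact lt_of_le_of_lt c2 (spow_lt (p := p) (by norm_num))
  have hyle : ‖u.y‖ ≤ 1 := by
    have : u.y = (u.y - 2 / x) + 2 / x := by ring
    rw [this]
    exact nadd_le hyclose.le r1
  have hresy : res u.y = 2 / a := by
    rw [← r1', res_eq_iff hyle r1]; exact hyclose
  have hgx := res_gg hxle
  rw [← ha] at hgx
  have hga := zgg_ne h8 a
  have hgma := zgg_ne h8 (-a)
  have h20 : (2 : ZMod p) ≠ 0 := by
    intro h
    apply zmod_two_nonsq h8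
    rw [h]; exact IsSquare.zero
  -- z
  have hzT : ‖-2 * gg x / x‖ ≤ 1 ∧ res (-2 * gg x / x) = -2 * gg a / a := by
    have h3 : ‖-2 * gg x‖ ≤ 1 := by
      rw [norm_mul, norm_neg, h2n, one_mul]; exact hgx.1
    have h4 : res (-2 * gg x) = -2 * gg a := by
      rw [res_mul (by rw [norm_neg, h2n]) hgx.1, res_neg h2n.le, res_ofNat, hgx.2]
    obtain ⟨h5, h6⟩ := res_div h3 hxn
    exact ⟨h5, by rw [h6, h4]⟩
  have hzclose : ‖u.z - -2 * gg x / x‖ < 1 := by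
    rw [huz, ← t5, ← sub_div, ← mul_sub, norm_div, norm_mul, norm_pow, hyQ, hd2]
    rw [div_lt_one (by positivity)]
    calc s ^ 3 * ‖yc R - yc (Q + T (nd_ne hd))‖ ≤ s ^ 3 * s ^ 4 := by gcongr
      _ = s ^ 7 := by ring
      _ < s ^ 6 := spow_lt (p := p) (by norm_num)
      _ = (s ^ 2) ^ 3 := by ring
  have hzle : ‖u.z‖ ≤ 1 := by
    have : u.z = (u.z - -2 * gg x / x) + -2 * gg x / x := by ring
    rw [this]
    exact nadd_le hzclose.le hzT.1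
  have hresz : res u.z = -2 * gg a / a := by
    rw [← hzT.2, res_eq_iff hzle hzT.1]; exact hzclose
  have huxle : ‖u.x‖ ≤ 1 := by rw [hux]; exact hxle
  have hresx : res u.x = a := by rw [hux]
  -- Dn
  have hn4 : ‖(4 : ℚ_[p])‖ ≤ 1 := norm_ofNat_le_one 4
  have hn6 : ‖(6 : ℚ_[p])‖ ≤ 1 := norm_ofNat_le_one 6
  have hDle : ‖Dn u.x u.y‖ ≤ 1 ∧ res (Dn u.x u.y) = 2 * gg a / a := by
    have e1 := norm_mul_le_one (norm_mul_le_one hn4 huxle) hyle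
    have e2 := nadd_le huxle hyle
    have e3 := norm_mul_le_one h2n.le e2
    unfold Dn
    refine ⟨nadd_le e1 e3, ?_⟩
    rw [res_add e1 e3, res_mul (norm_mul_le_one hn4 huxle) hyle, res_mul hn4 huxle,
      res_mul h2n.le e2, res_add huxle hyle, hresx, hresy, res_ofNat, res_ofNat]
    unfold gg
    field_simp
    ring
  have hDn : ‖Dn u.x u.y‖ = 1 := by
    rw [← res_ne_zero hDle.1, hDle.2]
    exact div_ne_zero (mul_ne_zero h20 hga) ha0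
  have hSle : ‖u.x + u.y + 4‖ ≤ 1 ∧ res (u.x + u.y + 4) = gg a / a := by
    have e2 := nadd_le huxle hyle
    refine ⟨nadd_le e2 hn4, ?_⟩
    rw [res_add e2 hn4, res_add huxle hyle, hresx, hresy, res_ofNat]
    unfold gg
    field_simp
    ring
  have hSn : ‖u.x + u.y + 4‖ = 1 := by
    rw [← res_ne_zero hSle.1, hSle.2]
    exact div_ne_zero hga ha0
  have hqle : ‖qn u.x u.y‖ ≤ 1 ∧ res (qn u.x u.y) = 2 * gg a * gg (-a) / a ^ 2 := by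
    have e1 := norm_mul_le_one (norm_mul_le_one hn6 huxle) hyle
    have e2 := norm_pow_le_one huxle 2
    have e3 := norm_pow_le_one hyle 2
    have e4 := nsub_le e2 e1
    have e5 := nadd_le e4 e3
    unfold qn
    refine ⟨norm_mul_le_one h2n.le e5, ?_⟩
    rw [res_mul h2n.le e5, res_add e4 e3, res_sub e2 e1, res_pow huxle, res_pow hyle,
      res_mul (norm_mul_le_one hn6 huxle) hyle, res_mul hn6 huxle, hresx, hresy, res_ofNat,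
      res_ofNat]
    unfold gg
    field_simp
    ring
  have hqn : ‖qn u.x u.y‖ = 1 := by
    rw [← res_ne_zero hqle.1, hqle.2]
    exact div_ne_zero (mul_ne_zero (mul_ne_zero h20 hga) hgma) (pow_ne_zero _ ha0)
  have hne : ∀ {w : ℚ_[p]}, ‖w‖ = 1 → w ≠ 0 := by
    intro w hw h0
    rw [h0, norm_zero] at hw
    exact zero_ne_one hw
  have hIO : IOK u := ⟨hne hDn, hne hSn, hne hqn⟩
  -- rho and kap
  have hrho : ‖rho u.x u.y‖ ≤ 1 ∧ res (rho u.x u.y) = -1 := by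
    have e1 : ‖-2 * (u.x + u.y + 4)‖ ≤ 1 := norm_mul_le_one (by rw [norm_neg, h2n]) hSle.1
    obtain ⟨h5, h6⟩ := res_div e1 hDn
    refine ⟨h5, ?_⟩
    unfold rho
    rw [h6, res_mul (by rw [norm_neg, h2n]) hSle.1, res_neg h2n.le, res_ofNat, hSle.2, hDle.2]
    field_simp
  have hkap : ‖kap u.x u.y‖ ≤ 1 ∧ res (kap u.x u.y) = -gg (-a) / gg a := by
    have e0 : ‖(-4 : ℚ_[p])‖ ≤ 1 := by rw [norm_neg]; exact hn4
    have e1 : ‖-4 * (u.x + u.y + 4)‖ ≤ 1 := norm_mul_le_one e0 hSle.1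
    have e2 : ‖-4 * (u.x + u.y + 4) * qn u.x u.y‖ ≤ 1 := norm_mul_le_one e1 hqle.1
    have e3 : ‖Dn u.x u.y ^ 3‖ = 1 := by rw [norm_pow, hDn, one_pow]
    obtain ⟨h5, h6⟩ := res_div e2 e3
    refine ⟨h5, ?_⟩
    unfold kap
    rw [h6, res_mul e1 hqle.1, res_mul e0 hSle.1, res_neg hn4, res_ofNat, hSle.2, hqle.2,
      res_pow hDle.1, hDle.2]
    field_simp
    ring
  -- the image
  obtain ⟨v, hvdef⟩ : ∃ v, v = iota u hIO := ⟨_, rfl⟩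
  have hvx : ‖v.x‖ ≤ 1 ∧ res v.x = -a := by
    rw [hvdef, iota_x]
    refine ⟨norm_mul_le_one hrho.1 huxle, ?_⟩
    rw [res_mul hrho.1 huxle, hrho.2, hresx]; ring
  have hvy : ‖v.y‖ ≤ 1 ∧ res v.y = -2 / a := by
    rw [hvdef, iota_y]
    refine ⟨norm_mul_le_one hrho.1 hyle, ?_⟩
    rw [res_mul hrho.1 hyle, hrho.2, hresy]; ring
  have hvz : ‖v.z‖ ≤ 1 ∧ res v.z = 2 * gg (-a) / a := by
    rw [hvdef, iota_z]
    refine ⟨norm_mul_le_one hkap.1 hzle, ?_⟩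
    rw [res_mul hkap.1 hzle, hkap.2, hresz]
    field_simp
  obtain ⟨d₀, P₁, P₂, hnd, hrep0⟩ := exists_rep v
  obtain ⟨k1, k2, k3, k4, k5, k6⟩ := id hrep0
  have hx1 : xc P₁ / d₀ = v.x := by rw [← k4, mul_div_cancel_right₀ _ k1]
  have hy1 : xc P₂ / d₀ = v.y := by rw [← k5, mul_div_cancel_right₀ _ k1]
  have hx1n : ‖xc P₁ / d₀‖ = 1 := by
    rw [hx1, ← res_ne_zero hvx.1, hvx.2]
    exact neg_ne_zero.2 ha0
  obtain ⟨hd2', hxP, hyP, hxP0, hyP0⟩ := unit_data h8 hnd (Q := P₁) hx1n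
  obtain ⟨T1, T2, T3, T4, T5⟩ := T_data h8 hnd (Q := P₁) hx1n
  rw [hx1] at T2 T5
  have hx1n' : ‖v.x‖ = 1 := by rw [← hx1]; exact hx1n
  have hd0n : 0 < ‖d₀‖ := norm_pos_iff.2 k1
  -- x-coordinates
  obtain ⟨q1, q1'⟩ := res_div (x := (2 : ℚ_[p])) (y := v.x) h2n.le hx1n'
  rw [res_ofNat, hvx.2] at q1'
  have w1 : ‖v.y - 2 / v.x‖ ≤ s := by
    apply le_of_lt_one
    rw [← res_eq_iff hvy.1 q1, hvy.2, q1']
    field_simp
  have w2 : ‖xc P₂ - xc (P₁ + T (nd_ne hnd))‖ ≤ s ^ 3 := by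
    have e : xc P₂ - xc (P₁ + T (nd_ne hnd)) = d₀ * (v.y - 2 / v.x) := by
      rw [← T2, ← hy1]; field_simp
    rw [e, norm_mul, hd2']
    calc s ^ 2 * ‖v.y - 2 / v.x‖ ≤ s ^ 2 * s := by gcongr
      _ = s ^ 3 := by ring
  -- z-coordinates
  have hgv := res_gg hvx.1
  rw [hvx.2] at hgv
  have w3 : ‖v.z - -2 * gg v.x / v.x‖ ≤ s := by
    apply le_of_lt_one
    have h3 : ‖-2 * gg v.x‖ ≤ 1 := by
      rw [norm_mul, norm_neg, h2n, one_mul]; exact hgv.1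
    have h4 : res (-2 * gg v.x) = -2 * gg (-a) := by
      rw [res_mul (by rw [norm_neg, h2n]) hgv.1, res_neg h2n.le, res_ofNat, hgv.2]
    obtain ⟨h5, h6⟩ := res_div h3 hx1n'
    rw [← res_eq_iff hvz.1 h5, hvz.2, h6, h4, hvx.2]
    field_simp
  have w4 : ‖yc P₂ - yc (P₁ + T (nd_ne hnd))‖ ≤ s ^ 4 := by
    have e : yc P₂ - yc (P₁ + T (nd_ne hnd)) = d₀ ^ 3 / yc P₁ * (v.z - -2 * gg v.x / v.x) := by
      rw [← T5]
      field_simp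
      linear_combination -k6
    rw [e, norm_mul, norm_div, norm_pow, hd2', hyP]
    calc (s ^ 2) ^ 3 / s ^ 3 * ‖v.z - -2 * gg v.x / v.x‖ ≤ (s ^ 2) ^ 3 / s ^ 3 * s := by gcongr
      _ = s ^ 4 := by field_simp
  have hfil := close2 h2 hd2' T1 k3 T3.le T4 w2 w4
  refine ⟨⟨d₀, hnd, P₁, P₂⟩, ⟨d, hd, Q, R⟩, ?_, LNear.refl n _, ?_, ?_⟩
  · apply SigL.symm
    refine ⟨u, hIO, hrep, ?_⟩
    rw [← hvdef]
    exact hrep0
  · change ‖xc P₁ / d₀ - ((-c : ℤ) : ℚ_[p])‖ < 1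
    have hcle : ‖((-c : ℤ) : ℚ_[p])‖ ≤ 1 := Padic.norm_int_le_one _
    rw [hx1, ← res_eq_iff hvx.1 hcle, hvx.2, ha]
    have e : ((-c : ℤ) : ℚ_[p]) = -(c : ℚ_[p]) := by push_cast; ring
    rw [e, res_neg hcn.le]
    congr 1
    rw [res_eq_iff hxle hcn.le]
    exact hx
  · change fil 0 (P₂ - P₁ + T (nd_ne hnd))
    have e : P₂ - P₁ + T (nd_ne hnd) = P₂ - (P₁ + T (nd_ne hnd)) := by
      rw [sub_add_eq_sub_sub, sub_eq_add_neg (P₂ - P₁) (T (nd_ne hnd)), neg_T]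
    rw [e]
    exact hfil

end KumWA
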