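import Pool.Agent.Helper23.TriFreeMaster

/-!
Asymptotic form of the explicit bound.
-/

namespace Pool.Agent.Helper23.TriFreeCount

open Finset Filter Topology

lemma log_pow_div_anti (j : ℕ) (hj : 0 < j) {x y : ℝ} (hx : Real.exp j ≤ x) (hxy : x ≤ y) :
    (Real.log y) ^ j / y ≤ (Real.log x) ^ j / x := by
  have hjR : (0 : ℝ) < j := by exact_mod_cast hj
  have ha : (0 : ℝ) < 1 / j := by positivity
  have h := Real.log_div_self_rpow_antitoneOn ha
  have hx0 : 0 < x := lt_of_lt_of_le (Real.exp_pos _) hx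
  have hy0 : 0 < y := lt_of_lt_of_le hx0 hxy
  have e : (1 / (j : ℝ))⁻¹ = j := by field_simp
  have h1 := h (a := x) (by
    simp only [Set.mem_Ici, e]
    exact hx) (b := y) (by
    simp only [Set.mem_Ici, e]
    exact hx.trans hxy) hxy
  simp only at h1
  have hlogy : 0 ≤ Real.log y := by
    rw [← Real.log_one]
    apply Real.log_le_log one_pos
    have : (1 : ℝ) ≤ Real.exp j := Real.one_le_exp hjR.le
    linarith
  have h2 := pow_le_pow_left₀ (by positivity) h1 j
  rw [div_pow, div_pow, ← Real.rpow_natCast (y ^ (1 / (j : ℝ))), ← Real.rpow_mul hy0.le,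
    ← Real.rpow_natCast (x ^ (1 / (j : ℝ))), ← Real.rpow_mul hx0.le, one_div,
    inv_mul_cancel₀ hjR.ne', Real.rpow_one, Real.rpow_one] at h2
  exact h2

/-- The bundle of eventual inequalities. -/
lemma eventually_bundle (ε : ℝ) (hε : 0 < ε) :
    ∀ᶠ Δ : ℕ in atTop, 1 ≤ Real.log Δ ∧ Real.exp 3 ≤ (1 / 2 + ε) * Δ / Real.log Δ ∧
      Real.log Δ + 1 ≤ (1 / 2 + ε) * Δ / Real.log Δ ∧
      Real.log ((1 / 2 + ε) * Δ / Real.log Δ) ≤ 2 * Real.log Δ ∧
      16 * Real.exp 1 * (Real.log Δ) ^ 4 < Real.exp ((1 - (1 + ε) / (1 + 2 * ε)) * Real.log Δ) := by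
  have hlog : Tendsto (fun Δ : ℕ => Real.log Δ) atTop atTop :=
    Real.tendsto_log_atTop.comp tendsto_natCast_atTop_atTop
  have hθ : 0 < 1 - (1 + ε) / (1 + 2 * ε) := by
    have : (1 + ε) / (1 + 2 * ε) < 1 := by
      rw [div_lt_one (by positivity)]; linarith
    linarith
  have hc0 : 0 < 1 / 2 + ε := by linarith
  -- ratio exp(b x)/x^4 tends to infinity
  have hratio : ∀ b : ℝ, 0 < b → ∀ j : ℕ, Tendsto (fun Δ : ℕ =>
      Real.exp (b * Real.log Δ) / (Real.log Δ) ^ j) atTop atTop := by
    intro b hb j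
    have := (tendsto_exp_mul_div_rpow_atTop (j : ℝ) b hb).comp hlog
    refine this.congr (fun Δ => ?_)
    simp [Function.comp]
  have h1 : ∀ᶠ Δ : ℕ in atTop, 1 ≤ Real.log Δ := hlog.eventually_ge_atTop 1
  have hexplog : ∀ᶠ Δ : ℕ in atTop, Real.exp (Real.log Δ) = Δ := by
    filter_upwards [eventually_gt_atTop 0] with Δ hΔ
    exact Real.exp_log (by exact_mod_cast hΔ)
  have h2 : ∀ᶠ Δ : ℕ in atTop, Real.exp 3 ≤ (1 / 2 + ε) * Δ / Real.log Δ := by
    have h := ((hratio 1 one_pos 1).const_mul_atTop hc0).eventually_ge_atTop (Real.exp 3)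
    filter_upwards [h, hexplog] with Δ hΔ he
    rw [one_mul, he, pow_one] at hΔ
    rw [mul_div_assoc]
    exact hΔ
  have h3 : ∀ᶠ Δ : ℕ in atTop, Real.log Δ + 1 ≤ (1 / 2 + ε) * Δ / Real.log Δ := by
    have h := ((hratio 1 one_pos 2).const_mul_atTop hc0).eventually_ge_atTop 2
    filter_upwards [h, hexplog, h1] with Δ hΔ he hl
    rw [one_mul, he] at hΔ
    have hl0 : 0 < Real.log Δ := by linarith
    have e1 : (1 / 2 + ε) * Δ / Real.log Δ = ((1 / 2 + ε) * (Δ / (Real.log Δ) ^ 2)) *
        Real.log Δ := by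
      field_simp
    rw [e1]
    nlinarith
  have h4 : ∀ᶠ Δ : ℕ in atTop, Real.log ((1 / 2 + ε) * Δ / Real.log Δ) ≤ 2 * Real.log Δ := by
    have h := hlog.eventually_ge_atTop (Real.log (1 / 2 + ε))
    filter_upwards [h, h1, eventually_gt_atTop 0] with Δ hΔ hl h0
    have hl0 : 0 < Real.log Δ := by linarith
    have hΔ0 : (0 : ℝ) < Δ := by exact_mod_cast h0
    have e1 : Real.log ((1 / 2 + ε) * Δ / Real.log Δ) ≤ Real.log ((1 / 2 + ε) * Δ) := by
      apply Real.log_le_log (by positivity)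
      apply div_le_self (by positivity) hl
    rw [Real.log_mul hc0.ne' hΔ0.ne'] at e1
    linarith
  have h5 : ∀ᶠ Δ : ℕ in atTop, 16 * Real.exp 1 * (Real.log Δ) ^ 4 <
      Real.exp ((1 - (1 + ε) / (1 + 2 * ε)) * Real.log Δ) := by
    have h := (hratio _ hθ 4).eventually_gt_atTop (16 * Real.exp 1)
    filter_upwards [h, h1] with Δ hΔ hl
    have hl0 : 0 < Real.log Δ := by linarith
    rw [lt_div_iff₀ (by positivity)] at hΔ
    exact hΔ
  filter_upwards [h1, h2, h3, h4, h5] with Δ a b c d e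
  exact ⟨a, b, c, d, e⟩

/-- Q1 for graphs whose vertices of degree at least `(1/2 + ε/2) Δ` span a subgraph of small
chromatic number. -/
theorem asym (ε : ℝ) (hε : 0 < ε) (κ : ℕ → ℕ)
    (hκ : Tendsto (fun Δ : ℕ => (κ Δ : ℝ) * (Real.log Δ) ^ 4 / Δ) atTop (𝓝 0)) :
    ∃ f : ℕ → ℝ, Tendsto f atTop (𝓝 0) ∧
      ∀ (V : Type) [Fintype V] [DecidableEq V] (G : SimpleGraph V) [DecidableRel G.Adj]
        (Δ q : ℕ), G.CliqueFree 3 → 2 ≤ Δ → (1 / 2 + ε) * Δ / Real.log Δ ≤ q →
        (G.induce {v | (1 / 2 + ε / 2) * Δ ≤ G.degree v}).Colorable (κ Δ) →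
        (1 - 1 / q : ℝ) ^ G.edgeFinset.card * ((1 - f Δ) * q) ^ Fintype.card V ≤
          (Nat.card (G.Coloring (Fin q)) : ℝ) := by
  classical
  set η : ℕ → ℝ := fun Δ => (κ Δ : ℝ) * (Real.log Δ) ^ 4 / Δ with hη
  set f0 : ℕ → ℝ := fun Δ => 20 * (33 * Real.sqrt (η Δ) + 1 / Real.log Δ) with hf0
  have hlog : Tendsto (fun Δ : ℕ => Real.log Δ) atTop atTop :=
    Real.tendsto_log_atTop.comp tendsto_natCast_atTop_atTop
  have hf0lim : Tendsto f0 atTop (𝓝 0) := by
    have h1 : Tendsto (fun Δ => Real.sqrt (η Δ)) atTop (𝓝 0) := by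
      have := (Real.continuous_sqrt.tendsto 0).comp hκ
      rw [Real.sqrt_zero] at this
      exact this
    have h2 : Tendsto (fun Δ : ℕ => 1 / Real.log Δ) atTop (𝓝 0) := by
      refine hlog.inv_tendsto_atTop.congr (fun Δ => ?_)
      rw [Pi.inv_apply, one_div]
    have := ((h1.const_mul 33).add h2).const_mul 20
    simpa [hf0] using this
  have hev := (eventually_bundle ε hε).and (hf0lim.eventually (ge_mem_nhds (zero_lt_one)))
  obtain ⟨Δ0, hΔ0⟩ := Filter.eventually_atTop.mp hev
  refine ⟨fun Δ => if Δ0 ≤ Δ then f0 Δ else 1, ?_, ?_⟩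
  · apply hf0lim.congr'
    filter_upwards [eventually_ge_atTop Δ0] with Δ hΔ
    rw [if_pos hΔ]
  intro V _ _ G _ Δ q htf hΔ2 hq hcol
  have hΔR : (2 : ℝ) ≤ Δ := by exact_mod_cast hΔ2
  have hΔpos : (0 : ℝ) < Δ := by linarith
  have hlogpos : 0 < Real.log Δ := Real.log_pos (by linarith)
  have hc0 : 0 < 1 / 2 + ε := by linarith
  by_cases hbig : Δ0 ≤ Δ
  swap
  · -- small `Δ`
    simp only [hbig, if_false, sub_self, zero_mul]
    rcases Nat.eq_zero_or_pos (Fintype.card V) with hV | hV
    · have hVe : IsEmpty V := Fintype.card_eq_zero_iff.mp hV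
      have hE : G.edgeFinset = ∅ := by
        ext e
        induction e with
        | _ x y => exact (hVe.false x).elim
      rw [hE, hV]
      simp only [Finset.card_empty, pow_zero, mul_one]
      have : Nonempty (G.Coloring (Fin q)) :=
        ⟨SimpleGraph.Coloring.mk (fun v => (hVe.false v).elim) (fun {v} => (hVe.false v).elim)⟩
      have hfin : Finite (G.Coloring (Fin q)) := by
        apply Finite.of_injective (fun C : G.Coloring (Fin q) => (C : V → Fin q))
        exact DFunLike.coe_injective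
      have : 0 < Nat.card (G.Coloring (Fin q)) := Nat.card_pos
      exact_mod_cast this
    · rw [zero_pow hV.ne', mul_zero]
      exact Nat.cast_nonneg _
  · simp only [hbig, if_true]
    obtain ⟨⟨hb1, hb2, hb3, hb4, hb5⟩, hf1⟩ := hΔ0 Δ hbig
    set Λ := Real.log Δ with hΛ
    set qm : ℝ := (1 / 2 + ε) * Δ / Λ with hqm
    have hqm0 : 0 < qm := by positivity
    have hq0 : (0 : ℝ) < q := by linarith
    have hexp3 : (20 : ℝ) ≤ Real.exp 3 := by
      have h := Real.exp_one_gt_d9
      have : Real.exp 3 = Real.exp 1 ^ 3 := by rw [← Real.exp_nat_mul]; norm_num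
      rw [this]
      have h2 : (2.7182 : ℝ) ≤ Real.exp 1 := by linarith
      have h3 := pow_le_pow_left₀ (by norm_num) h2 3
      norm_num at h3 ⊢
      linarith
    have hq3 : 3 ≤ q := by
      have : (3 : ℝ) ≤ q := by linarith
      exact_mod_cast this
    set L := Real.log q with hL
    have hL3 : 3 ≤ L := by
      rw [hL, Real.le_log_iff_exp_le hq0]
      linarith
    -- η and ω
    have hη0 : 0 ≤ η Δ := by simp only [hη]; positivity
    set s := Real.sqrt (η Δ) with hs
    have hs0 : 0 ≤ s := Real.sqrt_nonneg _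
    have hss : s * s = η Δ := Real.mul_self_sqrt hη0
    set ω : ℝ := 1 / (s + 1 / Λ) with hω
    have hden : 0 < s + 1 / Λ := by positivity
    have hω0 : 0 < ω := by positivity
    have hf1' : 20 * (33 * s + 1 / Λ) ≤ 1 := hf1
    have hω1 : 1 ≤ ω := by
      rw [hω, le_div_iff₀ hden]
      linarith
    have hωΛ : ω ≤ Λ := by
      rw [hω, div_le_iff₀ hden]
      have : 0 ≤ Λ * s := by positivity
      have : Λ * (1 / Λ) = 1 := by field_simp
      nlinarith
    have hωs : ω * s ≤ 1 := by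
      rw [hω, div_mul_eq_mul_div, div_le_one hden]
      have : 0 < 1 / Λ := by positivity
      linarith
    -- the parameter `a`
    set a : ℕ := ⌈L ^ 2 * ω⌉₊ with ha
    have hLω : 1 ≤ L ^ 2 * ω := by nlinarith
    have ha1 : L ^ 2 * ω ≤ a := Nat.le_ceil _
    have ha2 : (a : ℝ) ≤ 2 * (L ^ 2 * ω) := by
      have := Nat.ceil_lt_add_one (a := L ^ 2 * ω) (by positivity)
      have h' : (a : ℝ) < L ^ 2 * ω + 1 := this
      linarith
    have ha0R : (0 : ℝ) < a := by linarith
    have ha0 : 0 < a := by exact_mod_cast ha0R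
    -- monotone quotients
    have hj3 : L ^ 3 / q ≤ (2 * Λ) ^ 3 / qm := by
      have h := log_pow_div_anti 3 (by norm_num) (x := qm) (y := q) (by exact_mod_cast hb2) hq
      refine h.trans ?_
      apply div_le_div_of_nonneg_right _ hqm0.le
      apply pow_le_pow_left₀ _ hb4
      apply Real.log_nonneg
      linarith
    have hj2 : L ^ 2 / q ≤ (2 * Λ) ^ 2 / qm := by
      have h := log_pow_div_anti 2 (by norm_num) (x := qm) (y := q) (by
        refine le_trans ?_ hb2
        apply Real.exp_le_exp.mpr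
        norm_num) hq
      refine h.trans ?_
      apply div_le_div_of_nonneg_right _ hqm0.le
      apply pow_le_pow_left₀ _ hb4
      apply Real.log_nonneg
      linarith
    -- the error
    set E := 20 * (L ^ 2 / a + κ Δ * a * L / q) with hE
    have hE1 : L ^ 2 / a ≤ s + 1 / Λ := by
      have : L ^ 2 / a ≤ L ^ 2 / (L ^ 2 * ω) := by
        apply div_le_div_of_nonneg_left (by positivity) (by positivity) ha1
      refine this.trans (le_of_eq ?_)
      have hL0 : L ^ 2 ≠ 0 := by positivity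
      rw [hω]
      field_simp
    have hE2 : κ Δ * a * L / q ≤ 32 * s := by
      have h1 : κ Δ * a * L / q ≤ κ Δ * (2 * (L ^ 2 * ω)) * L / q := by
        apply div_le_div_of_nonneg_right _ hq0.le
        apply mul_le_mul_of_nonneg_right _ (by linarith)
        apply mul_le_mul_of_nonneg_left ha2 (Nat.cast_nonneg _)
      have h2 : κ Δ * (2 * (L ^ 2 * ω)) * L / q = 2 * κ Δ * ω * (L ^ 3 / q) := by ring
      have h3 : 2 * κ Δ * ω * (L ^ 3 / q) ≤ 2 * κ Δ * ω * ((2 * Λ) ^ 3 / qm) := by
        apply mul_le_mul_of_nonneg_left hj3 (by positivity)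
      have h4 : (2 * Λ) ^ 3 / qm ≤ 16 * (Λ ^ 4 / Δ) := by
        rw [hqm]
        have : (2 * Λ) ^ 3 / ((1 / 2 + ε) * Δ / Λ) = 8 / (1 / 2 + ε) * (Λ ^ 4 / Δ) := by
          field_simp
          ring
        rw [this]
        apply mul_le_mul_of_nonneg_right _ (by positivity)
        rw [div_le_iff₀ hc0]
        linarith
      have h5 : 2 * κ Δ * ω * ((2 * Λ) ^ 3 / qm) ≤ 2 * κ Δ * ω * (16 * (Λ ^ 4 / Δ)) := by
        apply mul_le_mul_of_nonneg_left h4 (by positivity)
      have h6 : 2 * κ Δ * ω * (16 * (Λ ^ 4 / Δ)) = 32 * (ω * s) * s := by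
        have : 32 * (ω * s) * s = 32 * ω * (s * s) := by ring
        rw [this, hss]
        simp only [hη]
        ring
      have h7 : 32 * (ω * s) * s ≤ 32 * s := by nlinarith
      linarith
    have hEf : E ≤ f0 Δ := by
      simp only [hf0, hE]
      have : 33 * s + 1 / Λ = (s + 1 / Λ) + 32 * s := by ring
      linarith
    have hEle : E ≤ 1 := hEf.trans hf1
    -- colourability
    have hcol' : (G.induce {v | q * (1 - 1 / q : ℝ) ^ (G.degree v) ≤ a}).Colorable (κ Δ) := by
      have hsub : ∀ v, q * (1 - 1 / q : ℝ) ^ (G.degree v) ≤ a →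
          (1 / 2 + ε / 2) * Δ ≤ G.degree v := by
        intro v hv
        by_contra hlt
        push Not at hlt
        have hq1 : (0 : ℝ) < q - 1 := by linarith
        have hx : Real.exp (-(1 / (q - 1 : ℝ))) ≤ 1 - 1 / q := by
          have h1 := Real.add_one_le_exp (1 / (q - 1 : ℝ))
          have h2 : 1 / (q - 1 : ℝ) + 1 = q / (q - 1) := by field_simp; ring
          rw [h2] at h1
          rw [Real.exp_neg]
          have h3 : (1 - 1 / q : ℝ) = (q / (q - 1 : ℝ))⁻¹ := by
            rw [inv_div]; field_simp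
          rw [h3]
          exact inv_anti₀ (by positivity) h1
        have hx' : Real.exp (-(G.degree v / (q - 1 : ℝ))) ≤ (1 - 1 / q : ℝ) ^ (G.degree v) := by
          calc Real.exp (-(G.degree v / (q - 1 : ℝ)))
              = (Real.exp (-(1 / (q - 1 : ℝ)))) ^ (G.degree v) := by
                rw [← Real.exp_nat_mul]; congr 1; ring
            _ ≤ _ := pow_le_pow_left₀ (Real.exp_nonneg _) hx _
        -- bound on the exponent
        set θ := (1 + ε) / (1 + 2 * ε) with hθ
        have hθ0 : 0 < θ := by positivity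
        have hθ1 : θ < 1 := by rw [hθ, div_lt_one (by positivity)]; linarith
        have h1 : (1 / 2 + ε / 2) * Δ ≤ θ * Λ * q := by
          have h2 : (1 / 2 + ε) * Δ ≤ q * Λ := by
            rw [hqm, div_le_iff₀ hlogpos] at hq
            exact hq
          have h3 : (1 / 2 + ε / 2) * Δ = θ * ((1 / 2 + ε) * Δ) := by
            rw [hθ]; field_simp
          rw [h3]
          calc θ * ((1 / 2 + ε) * Δ) ≤ θ * (q * Λ) := mul_le_mul_of_nonneg_left h2 hθ0.le
            _ = θ * Λ * q := by ring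
        have h4 : (G.degree v : ℝ) / (q - 1) ≤ θ * Λ + 1 := by
          rw [div_le_iff₀ hq1]
          have h5 : θ * Λ * q = θ * Λ * (q - 1) + θ * Λ := by ring
          have h6 : θ * Λ ≤ Λ := by nlinarith
          have h7 : Λ ≤ q - 1 := by linarith
          linarith
        have h8 : q * (Real.exp (-(θ * Λ)) * Real.exp (-1)) ≤ a := by
          refine le_trans ?_ hv
          apply mul_le_mul_of_nonneg_left _ hq0.le
          refine le_trans ?_ hx'
          rw [← Real.exp_add]
          apply Real.exp_le_exp.mpr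
          linarith
        have h9 : (a : ℝ) ≤ 2 * L ^ 2 * Λ := by
          have : 2 * (L ^ 2 * ω) ≤ 2 * L ^ 2 * Λ := by
            have := mul_le_mul_of_nonneg_left hωΛ (by positivity : 0 ≤ 2 * L ^ 2)
            linarith
          linarith
        -- contradiction
        have h10 : L ^ 2 ≤ (2 * Λ) ^ 2 / qm * q := by
          rw [div_le_iff₀ hq0] at hj2
          exact hj2
        have h11 : (2 * Λ) ^ 2 / qm ≤ 8 * Λ ^ 3 / Δ := by
          rw [hqm]
          have : (2 * Λ) ^ 2 / ((1 / 2 + ε) * Δ / Λ) = 4 / (1 / 2 + ε) * (Λ ^ 3 / Δ) := by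
            field_simp
            ring
          rw [this, mul_div_assoc]
          apply mul_le_mul_of_nonneg_right _ (by positivity)
          rw [div_le_iff₀ hc0]
          linarith
        have h12 : L ^ 2 ≤ 8 * Λ ^ 3 / Δ * q := h10.trans (mul_le_mul_of_nonneg_right h11 hq0.le)
        have h13 : q * (Real.exp (-(θ * Λ)) * Real.exp (-1)) ≤ 2 * (8 * Λ ^ 3 / Δ * q) * Λ := by
          refine h8.trans (h9.trans ?_)
          apply mul_le_mul_of_nonneg_right _ hlogpos.le
          linarith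
        have h14 : Real.exp (-(θ * Λ)) * Real.exp (-1) ≤ 16 * Λ ^ 4 / Δ := by
          have : 2 * (8 * Λ ^ 3 / Δ * q) * Λ = q * (16 * Λ ^ 4 / Δ) := by ring
          rw [this] at h13
          exact le_of_mul_le_mul_left h13 hq0
        have hΔexp : (Δ : ℝ) = Real.exp Λ := (Real.exp_log hΔpos).symm
        rw [le_div_iff₀ hΔpos] at h14
        have h15 : Real.exp (-(θ * Λ)) * Real.exp (-1) * Δ =
            Real.exp ((1 - θ) * Λ) * Real.exp (-1) := by
          rw [hΔexp, ← Real.exp_add, ← Real.exp_add, ← Real.exp_add]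
          congr 1
          ring
        rw [h15] at h14
        have h16 : Real.exp ((1 - θ) * Λ) ≤ 16 * Λ ^ 4 * Real.exp 1 := by
          have h17 : Real.exp ((1 - θ) * Λ) = Real.exp ((1 - θ) * Λ) * Real.exp (-1) *
              Real.exp 1 := by
            rw [mul_assoc, ← Real.exp_add]; simp
          rw [h17]
          exact mul_le_mul_of_nonneg_right h14 (Real.exp_nonneg _)
        linarith
      obtain ⟨C⟩ := hcol
      refine ⟨SimpleGraph.Coloring.mk (fun v => C ⟨v.1, hsub v.1 v.2⟩) ?_⟩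
      intro u v huv
      exact C.valid huv
    have htri : ∀ x y z, G.Adj x y → G.Adj y z → G.Adj x z → False := by
      intro x y z hxy hyz hxz
      exact htf {x, y, z} (SimpleGraph.is3Clique_triple_iff.mpr ⟨hxy, hxz, hyz⟩)
    have hmain := explicit_bound q a (κ Δ) hq3 ha0 htri hcol' hEle
    refine le_trans ?_ hmain
    have hx0 : (0 : ℝ) ≤ 1 - 1 / q := by
      have : (1 : ℝ) / q ≤ 1 := by rw [div_le_one hq0]; linarith
      linarith
    apply mul_le_mul_of_nonneg_left _ (pow_nonneg hx0 _)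
    apply pow_le_pow_left₀
    · apply mul_nonneg _ hq0.le
      linarith
    · apply mul_le_mul_of_nonneg_right _ hq0.le
      linarith

end Pool.Agent.Helper23.TriFreeCount
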