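import Pool.Agent.Helper23.TriFreeMaster

/-!
Graphs of large average degree: constant-factor version.
-/

namespace Pool.Agent.Helper23.TriFreeCount

open Finset Filter Topology

section

variable {V : Type*} [Fintype V] [DecidableEq V] {G : SimpleGraph V} [DecidableRel G.Adj]

/-- The optimal vertex subset, compared with every subset. -/
lemma exists_opt' (q a : ℕ) (hq : 2 ≤ q) (ha : 0 < a) :
    ∃ T : Finset V,
      (∀ v ∈ T, (a : ℝ) ≤ q * (1 - 1 / q : ℝ) ^ (nb G T v).card) ∧
      ∀ T' : Finset V,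
        (a : ℝ) ^ (Fintype.card V - T'.card) * q ^ T'.card * (1 - 1 / q : ℝ) ^ (ed G T').card ≤
        a ^ (Fintype.card V - T.card) * q ^ T.card * (1 - 1 / q : ℝ) ^ (ed G T).card := by
  have hqR : (2 : ℝ) ≤ q := by exact_mod_cast hq
  have hx0 : (0 : ℝ) < 1 - 1 / q := by
    have : (1 : ℝ) / q ≤ 1 / 2 := by
      apply one_div_le_one_div_of_le (by norm_num) hqR
    linarith
  set x : ℝ := 1 - 1 / q with hx
  have haR : (0 : ℝ) < a := by exact_mod_cast ha
  have hq0 : (0 : ℝ) < q := by linarith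
  obtain ⟨T, _, hT⟩ := Finset.exists_max_image (Finset.univ : Finset (Finset V))
    (fun T => (a : ℝ) ^ (Fintype.card V - T.card) * q ^ T.card * x ^ (ed G T).card)
    ⟨∅, Finset.mem_univ _⟩
  refine ⟨T, ?_, fun T' => hT T' (Finset.mem_univ _)⟩
  intro v hv
  have h := hT (T.erase v) (Finset.mem_univ _)
  have hnb : nb G T v = nb G (T.erase v) v := by
    ext w
    rw [mem_nb, mem_nb, mem_erase]
    constructor
    · rintro ⟨h1, h2⟩
      exact ⟨⟨(G.ne_of_adj h2).symm, h1⟩, h2⟩
    · rintro ⟨⟨_, h1⟩, h2⟩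
      exact ⟨h1, h2⟩
  have h3 : (ed G T).card = (ed G (T.erase v)).card + (nb G T v).card := by
    rw [hnb, ← ed_insert (Finset.notMem_erase v T), Finset.insert_erase hv]
  have hpos : 0 < T.card := Finset.card_pos.mpr ⟨v, hv⟩
  have hle : T.card ≤ Fintype.card V := Finset.card_le_univ T
  have h4 : (T.erase v).card = T.card - 1 := Finset.card_erase_of_mem hv
  have h5 : Fintype.card V - (T.erase v).card = (Fintype.card V - T.card) + 1 := by omega
  have h6 : T.card = (T.erase v).card + 1 := by omega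
  set C : ℝ := (a : ℝ) ^ (Fintype.card V - T.card) * q ^ (T.erase v).card *
      x ^ (ed G (T.erase v)).card with hC
  have hc : 0 < C := by positivity
  have e1 : (a : ℝ) ^ (Fintype.card V - (T.erase v).card) * q ^ (T.erase v).card *
      x ^ (ed G (T.erase v)).card = C * a := by
    rw [h5, hC, pow_succ]; ring
  have e2 : (a : ℝ) ^ (Fintype.card V - T.card) * q ^ T.card * x ^ (ed G T).card =
      C * (q * x ^ (nb G T v).card) := by
    have e3 : (q : ℝ) ^ T.card = q ^ (T.erase v).card * q := by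
      rw [← pow_succ, ← h6]
    rw [h3, pow_add, e3, hC]; ring
  have h7 : C * a ≤ C * (q * x ^ (nb G T v).card) := by
    rw [← e1, ← e2]; exact h
  exact le_of_mul_le_mul_left h7 hc

/-- Existence with `k` colours gives many colourings with `r + k` colours. -/
theorem boost (r a k : ℕ) (hr : 3 ≤ r) (ha : 12 * (Real.log r) ^ 2 ≤ a)
    (htri : ∀ x y z, G.Adj x y → G.Adj y z → G.Adj x z → False)
    (hcol : G.Colorable k) (T' : Finset V) :
    ((r : ℝ) / a) ^ T'.card * (1 - 1 / r : ℝ) ^ (ed G T').card ≤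
      (Nat.card (G.Coloring (Fin (r + k))) : ℝ) := by
  classical
  have hrR : (3 : ℝ) ≤ r := by exact_mod_cast hr
  have hr0 : (0 : ℝ) < r := by linarith
  set L := Real.log r with hL
  have hL1 : 1 ≤ L := by
    rw [hL, Real.le_log_iff_exp_le hr0]
    have := Real.exp_one_lt_d9
    linarith
  have ha12 : (12 : ℝ) ≤ a := by nlinarith
  have ha0R : (0 : ℝ) < a := by linarith
  have ha0 : 0 < a := by exact_mod_cast ha0R
  set x : ℝ := 1 - 1 / r with hx
  have hx0 : 0 < x := by
    have : (1 : ℝ) / r ≤ 1 / 3 := by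
      apply one_div_le_one_div_of_le (by norm_num) hrR
    rw [hx]; linarith
  obtain ⟨T, hT1, hT2⟩ := exists_opt' (G := G) r a (by omega) ha0
  rw [← hx] at hT1 hT2
  set D := T.sup (fun v => (nb G T v).card) with hDdef
  have hD : ∀ v ∈ T, (nb G T v).card ≤ D := fun v hv =>
    Finset.le_sup (f := fun v => (nb G T v).card) hv
  have hDa : D = 0 ∨ (a : ℝ) ≤ r * x ^ D := by
    by_cases hT : T.Nonempty
    · right
      obtain ⟨v, hv, hv'⟩ := Finset.exists_mem_eq_sup T hT (fun v => (nb G T v).card)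
      rw [hDdef, hv']
      exact hT1 v hv
    · left
      rw [Finset.not_nonempty_iff_eq_empty] at hT
      rw [hDdef, hT, Finset.sup_empty]
      rfl
  have hcond : (D / r : ℝ) * (2 + D / r) ≤ (1 / 2) * (1 - 1 / 2) * (r * (1 - 1 / r : ℝ) ^ D) := by
    rcases hDa with h0 | h0
    · rw [h0]
      simp only [Nat.cast_zero, zero_div, zero_mul, pow_zero, mul_one]
      positivity
    · have hDL : (D : ℝ) / r ≤ L := by
        have h1 : x ≤ Real.exp (-(1 / r : ℝ)) := by
          have := Real.add_one_le_exp (-(1 / r : ℝ))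
          rw [hx]; linarith
        have h2 : x ^ D ≤ Real.exp (-(D / r : ℝ)) := by
          calc x ^ D ≤ (Real.exp (-(1 / r : ℝ))) ^ D := pow_le_pow_left₀ hx0.le h1 D
            _ = Real.exp (-(D / r : ℝ)) := by
              rw [← Real.exp_nat_mul]
              congr 1
              ring
        have h3 : 1 ≤ r * Real.exp (-(D / r : ℝ)) := by
          calc (1 : ℝ) ≤ a := by linarith
            _ ≤ r * x ^ D := h0
            _ ≤ _ := mul_le_mul_of_nonneg_left h2 hr0.le
        have h4 : Real.exp (D / r : ℝ) ≤ r := by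
          rw [Real.exp_neg, ← div_eq_mul_inv, le_div_iff₀ (Real.exp_pos _)] at h3
          linarith
        rw [hL, Real.le_log_iff_exp_le hr0]
        exact h4
      have h1' : (0 : ℝ) ≤ D / r := by positivity
      have h2 : (D / r : ℝ) * (2 + D / r) ≤ L * (2 * L + L) := by
        apply mul_le_mul hDL _ (by positivity) (by linarith)
        linarith
      rw [← hx]
      nlinarith
  have hP := card_P_ge (G := G) (q := r) T D (1 / 2) (by omega) (by norm_num) htri hD hcond
  have hcolT : (G.induce {v | v ∉ T}).Colorable k := by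
    obtain ⟨C⟩ := hcol
    refine ⟨SimpleGraph.Coloring.mk (fun v => C v.1) ?_⟩
    intro u v huv
    exact C.valid huv
  have hres := reserve (q := r + k) (r := r) (k := k) (a := 1) one_pos T hcolT (by omega)
  simp only [Nat.cast_one, one_pow, mul_one] at hres
  rw [← hx] at hP
  set n := Fintype.card V with hn
  set t := T.card with ht
  have htn : t ≤ n := Finset.card_le_univ T
  have htn' : T'.card ≤ n := Finset.card_le_univ T'
  set c : ℝ := (Nat.card (G.Coloring (Fin (r + k))) : ℝ) with hc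
  have h1 : (1 - 1 / 2 : ℝ) ^ t * x ^ (ed G T).card * r ^ t ≤ c := by
    have h2 := hP.trans hres
    have h3 : (r : ℝ) ^ n = r ^ (n - t) * r ^ t := by
      rw [← pow_add, Nat.sub_add_cancel htn]
    rw [h3] at h2
    have h4 : (r : ℝ) ^ (n - t) * ((1 - 1 / 2 : ℝ) ^ t * x ^ (ed G T).card * r ^ t) ≤
        r ^ (n - t) * c := by
      calc _ = (1 - 1 / 2 : ℝ) ^ t * x ^ (ed G T).card * (r ^ (n - t) * r ^ t) := by ring
        _ ≤ _ := h2
    exact le_of_mul_le_mul_left h4 (by positivity)
  have h5 := hT2 T'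
  have e1 : (a : ℝ) ^ (n - T'.card) = a ^ n / a ^ T'.card := by
    rw [eq_div_iff (by positivity), ← pow_add, Nat.sub_add_cancel htn']
  have e2 : (a : ℝ) ^ (n - t) = a ^ n / a ^ t := by
    rw [eq_div_iff (by positivity), ← pow_add, Nat.sub_add_cancel htn]
  rw [e1, e2] at h5
  have h6 : ((r : ℝ) / a) ^ T'.card * x ^ (ed G T').card ≤
      ((r : ℝ) / a) ^ t * x ^ (ed G T).card := by
    have han : (0 : ℝ) < (a : ℝ) ^ n := by positivity
    have e3 : (a : ℝ) ^ n / a ^ T'.card * r ^ T'.card * x ^ (ed G T').card =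
        a ^ n * (((r : ℝ) / a) ^ T'.card * x ^ (ed G T').card) := by
      rw [div_pow]; ring
    have e4 : (a : ℝ) ^ n / a ^ t * r ^ t * x ^ (ed G T).card =
        a ^ n * (((r : ℝ) / a) ^ t * x ^ (ed G T).card) := by
      rw [div_pow]; ring
    rw [e3, e4] at h5
    exact le_of_mul_le_mul_left h5 han
  refine h6.trans (le_trans ?_ h1)
  have h7 : ((r : ℝ) / a) ^ t ≤ (1 - 1 / 2 : ℝ) ^ t * r ^ t := by
    rw [← mul_pow]
    apply pow_le_pow_left₀ (by positivity)
    rw [div_le_iff₀ ha0R]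
    nlinarith
  calc ((r : ℝ) / a) ^ t * x ^ (ed G T).card ≤ ((1 - 1 / 2 : ℝ) ^ t * r ^ t) *
        x ^ (ed G T).card := mul_le_mul_of_nonneg_right h7 (by positivity)
    _ = _ := by ring

/-- A random subset of density `τ`. -/
lemma exists_subset (τ A B : ℝ) (hτ0 : 0 ≤ τ) (hτ1 : τ ≤ 1) :
    ∃ T : Finset V, τ * Fintype.card V * A - τ ^ 2 * G.edgeFinset.card * B ≤
      T.card * A - (ed G T).card * B := by
  classical
  let w : Bool → ℝ := fun b => if b then τ else 1 - τ
  have hw0 : ∀ b, 0 ≤ w b := by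
    intro b
    cases b
    · simp only [w]; simp; exact hτ1
    · simp only [w]; simp; exact hτ0
  let W : (V → Bool) → ℝ := fun f => ∏ v, w (f v)
  have hW0 : ∀ f, 0 ≤ W f := fun f => Finset.prod_nonneg (fun v _ => hw0 _)
  have hind : ∀ S : Finset V, ∑ f : V → Bool, W f * (if ∀ v ∈ S, f v = true then 1 else 0) =
      τ ^ S.card := by
    intro S
    have h1 : ∀ f : V → Bool, W f * (if ∀ v ∈ S, f v = true then 1 else 0) =
        ∏ v, (if v ∈ S then (if f v then τ else 0) else w (f v)) := by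
      intro f
      by_cases hS : ∀ v ∈ S, f v = true
      · rw [if_pos hS, mul_one]
        apply Finset.prod_congr rfl
        intro v _
        by_cases hv : v ∈ S
        · rw [if_pos hv, hS v hv]
          simp [w]
        · rw [if_neg hv]
      · rw [if_neg hS, mul_zero]
        push Not at hS
        obtain ⟨v, hv, hfv⟩ := hS
        symm
        apply Finset.prod_eq_zero (Finset.mem_univ v)
        rw [if_pos hv, if_neg (by simpa using hfv)]
    rw [Finset.sum_congr rfl (fun f _ => h1 f)]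
    have h2 := Finset.prod_univ_sum (fun _ : V => (Finset.univ : Finset Bool))
      (fun v b => (if v ∈ S then (if b then τ else 0) else w b))
    rw [Fintype.piFinset_univ] at h2
    rw [← h2]
    have h3 : ∀ v : V, ∑ b : Bool, (if v ∈ S then (if b then τ else 0) else w b) =
        if v ∈ S then τ else 1 := by
      intro v
      by_cases hv : v ∈ S
      · simp [hv]
      · simp [hv, w]
    rw [Finset.prod_congr rfl (fun v _ => h3 v), Finset.prod_ite]
    simp only [prod_const_one, prod_const, mul_one]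
    congr 2
    ext v; simp
  have hW1 : ∑ f : V → Bool, W f = 1 := by
    have := hind ∅
    simpa using this
  let Tf : (V → Bool) → Finset V := fun f => Finset.univ.filter (fun v => f v = true)
  have hcard : ∑ f : V → Bool, W f * ((Tf f).card : ℝ) = τ * Fintype.card V := by
    have h1 : ∀ f : V → Bool, W f * ((Tf f).card : ℝ) =
        ∑ v, W f * (if ∀ u ∈ ({v} : Finset V), f u = true then 1 else 0) := by
      intro f
      rw [← Finset.mul_sum]
      congr 1
      simp only [mem_singleton, forall_eq]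
      rw [Finset.sum_boole]
    rw [Finset.sum_congr rfl (fun f _ => h1 f), Finset.sum_comm,
      Finset.sum_congr rfl (fun v _ => hind {v})]
    simp only [card_singleton, pow_one, sum_const, card_univ, nsmul_eq_mul]
    ring
  have hedge : ∑ f : V → Bool, W f * ((ed G (Tf f)).card : ℝ) = τ ^ 2 * G.edgeFinset.card := by
    have h1 : ∀ f : V → Bool, W f * ((ed G (Tf f)).card : ℝ) =
        ∑ e ∈ G.edgeFinset, W f * (if ∀ u ∈ e.toFinset, f u = true then 1 else 0) := by
      intro f
      rw [← Finset.mul_sum]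
      congr 1
      rw [Finset.sum_boole]
      congr 2
      ext e
      simp [ed, Tf]
    rw [Finset.sum_congr rfl (fun f _ => h1 f), Finset.sum_comm,
      Finset.sum_congr rfl (fun e _ => hind e.toFinset)]
    have h2 : ∀ e ∈ G.edgeFinset, τ ^ e.toFinset.card = τ ^ 2 := by
      intro e he
      rw [Sym2.card_toFinset_of_not_isDiag]
      rw [SimpleGraph.mem_edgeFinset] at he
      exact G.not_isDiag_of_mem_edgeSet he
    rw [Finset.sum_congr rfl h2, Finset.sum_const, nsmul_eq_mul]
    ring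
  by_contra hcon
  push Not at hcon
  set R := τ * Fintype.card V * A - τ ^ 2 * G.edgeFinset.card * B with hR
  have hsum : ∑ f : V → Bool, W f * ((Tf f).card * A - (ed G (Tf f)).card * B) = R := by
    have : ∀ f : V → Bool, W f * ((Tf f).card * A - (ed G (Tf f)).card * B) =
        (W f * (Tf f).card) * A - (W f * (ed G (Tf f)).card) * B := by
      intro f; ring
    rw [Finset.sum_congr rfl (fun f _ => this f), Finset.sum_sub_distrib, ← Finset.sum_mul,
      ← Finset.sum_mul, hcard, hedge]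
  have hlt : ∑ f : V → Bool, W f * ((Tf f).card * A - (ed G (Tf f)).card * B) <
      ∑ f : V → Bool, W f * R := by
    apply Finset.sum_lt_sum
    · intro f _
      exact mul_le_mul_of_nonneg_left (hcon (Tf f)).le (hW0 f)
    · by_contra hall
      push Not at hall
      have hz : ∀ f : V → Bool, W f = 0 := by
        intro f
        have h1 := hall f (Finset.mem_univ f)
        have h2 := hcon (Tf f)
        by_contra hne
        have hpos : 0 < W f := lt_of_le_of_ne (hW0 f) (Ne.symm hne)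
        have := mul_lt_mul_of_pos_left h2 hpos
        linarith
      rw [Finset.sum_congr rfl (fun f _ => hz f)] at hW1
      simp at hW1
  rw [hsum, ← Finset.sum_mul, hW1, one_mul] at hlt
  exact lt_irrefl _ hlt

end

/-- The bundle of eventual inequalities. -/
lemma eventually_bundle2 (ε : ℝ) (hε : 0 < ε) :
    ∀ᶠ q : ℕ in atTop, 1 ≤ Real.log q ∧ 3 ≤ ε * q ∧ Real.log q + 1 ≤ ε * q ∧
      2 * (Real.log (1 / ε) + Real.log (13 * (Real.log q) ^ 2)) + 1 ≤ ε ^ 3 * Real.log q := by
  have hcast : Tendsto (fun q : ℕ => (q : ℝ)) atTop atTop := tendsto_natCast_atTop_atTop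
  have hlog : Tendsto (fun q : ℕ => Real.log q) atTop atTop :=
    Real.tendsto_log_atTop.comp hcast
  have h1 : ∀ᶠ q : ℕ in atTop, 1 ≤ Real.log q := hlog.eventually_ge_atTop 1
  have h2 : ∀ᶠ q : ℕ in atTop, 3 ≤ ε * q := (hcast.const_mul_atTop hε).eventually_ge_atTop 3
  have h3 : ∀ᶠ q : ℕ in atTop, Real.log q + 1 ≤ ε * q := by
    have hlo : (fun x : ℝ => Real.log x) =o[atTop] (fun x => x) := Real.isLittleO_log_id_atTop
    have h := (hlo.def (half_pos hε))
    have h' := hcast.eventually h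
    have h'' := (hcast.const_mul_atTop (half_pos hε)).eventually_ge_atTop 1
    filter_upwards [h', h'', h1] with q ha hb hc
    rw [Real.norm_eq_abs, Real.norm_eq_abs, abs_of_nonneg (by linarith),
      abs_of_nonneg (Nat.cast_nonneg q)] at ha
    linarith
  have h4 : ∀ᶠ q : ℕ in atTop,
      2 * (Real.log (1 / ε) + Real.log (13 * (Real.log q) ^ 2)) + 1 ≤ ε ^ 3 * Real.log q := by
    have hlo : (fun x : ℝ => Real.log x) =o[atTop] (fun x => x) := Real.isLittleO_log_id_atTop
    have h := hlo.def (show (0 : ℝ) < ε ^ 3 / 8 by positivity)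
    have h' := hlog.eventually h
    have h'' := (hlog.const_mul_atTop (show (0 : ℝ) < ε ^ 3 / 2 by positivity)).eventually_ge_atTop
      (2 * Real.log (1 / ε) + 2 * Real.log 13 + 1)
    filter_upwards [h', h'', h1] with q ha hb hc
    have hl0 : 0 ≤ Real.log (Real.log q) := Real.log_nonneg hc
    rw [Real.norm_eq_abs, Real.norm_eq_abs, abs_of_nonneg hl0,
      abs_of_nonneg (by linarith)] at ha
    have e : Real.log (13 * (Real.log q) ^ 2) = Real.log 13 + 2 * Real.log (Real.log q) := by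
      rw [Real.log_mul (by norm_num) (by positivity), Real.log_pow]
      norm_num
    rw [e]
    linarith
  filter_upwards [h1, h2, h3, h4] with q a b c d
  exact ⟨a, b, c, d⟩

/-- Triangle-free graphs of average degree `β q log q`, `1 + ε ≤ β ≤ 2`. -/
theorem dense (ε : ℝ) (hε : 0 < ε) (hε1 : ε < 1) :
    ∃ q0 : ℕ, ∀ q : ℕ, q0 ≤ q →
      ∀ (V : Type) [Fintype V] [DecidableEq V] (G : SimpleGraph V) [DecidableRel G.Adj]
        (k : ℕ) (β : ℝ), G.CliqueFree 3 → G.Colorable k →
        2 * (G.edgeFinset.card : ℝ) = β * (q * Real.log q) * Fintype.card V →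
        1 + ε ≤ β → β ≤ 2 → (k : ℝ) ≤ (1 - ε) * (β - 1) ^ 2 * q →
        (1 - 1 / q : ℝ) ^ G.edgeFinset.card * (q : ℝ) ^ Fintype.card V ≤
          (Nat.card (G.Coloring (Fin q)) : ℝ) := by
  classical
  obtain ⟨q0, hq0⟩ := Filter.eventually_atTop.mp (eventually_bundle2 ε hε)
  refine ⟨q0, fun q hq V _ _ G _ k β htf hcol hm hβ1 hβ2 hk => ?_⟩
  obtain ⟨hb1, hb2, hb3, hb4⟩ := hq0 q hq
  set ℓ := Real.log q with hℓ
  have hqpos : (0 : ℝ) < q := by
    by_contra h
    have : (q : ℝ) ≤ 0 := not_lt.mp h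
    have : ε * q ≤ 0 := mul_nonpos_of_nonneg_of_nonpos hε.le this
    linarith
  have hβ0 : 0 < β := by linarith
  have hβsq : (β - 1) ^ 2 ≤ 1 := by nlinarith
  have hβsq' : ε ^ 2 ≤ (β - 1) ^ 2 := by
    apply pow_le_pow_left₀ hε.le; linarith
  have hk1 : (k : ℝ) ≤ (1 - ε) * q := by
    refine hk.trans ?_
    apply mul_le_mul_of_nonneg_right _ hqpos.le
    nlinarith
  have hkq : k ≤ q := by
    have : (k : ℝ) ≤ q := by nlinarith
    exact_mod_cast this
  obtain ⟨r, hr⟩ : ∃ r, r + k = q := ⟨q - k, Nat.sub_add_cancel hkq⟩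
  have hrR : (r : ℝ) = q - k := by
    have : ((r + k : ℕ) : ℝ) = (q : ℝ) := by rw [hr]
    push_cast at this
    linarith
  have hrε : ε * q ≤ r := by rw [hrR]; linarith
  have hr3 : 3 ≤ r := by
    have : (3 : ℝ) ≤ r := by linarith
    exact_mod_cast this
  have hr3R : (3 : ℝ) ≤ r := by linarith
  have hr0 : (0 : ℝ) < r := by linarith
  have hrq : (r : ℝ) ≤ q := by rw [hrR]; have : (0 : ℝ) ≤ k := Nat.cast_nonneg k; linarith
  have hlogr : Real.log r ≤ ℓ := Real.log_le_log hr0 hrq
  have hlogr0 : 0 ≤ Real.log r := Real.log_nonneg (by linarith)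
  set a : ℕ := ⌈12 * ℓ ^ 2⌉₊ with ha
  have ha1 : 12 * ℓ ^ 2 ≤ a := Nat.le_ceil _
  have ha2 : (a : ℝ) ≤ 13 * ℓ ^ 2 := by
    have := Nat.ceil_lt_add_one (a := 12 * ℓ ^ 2) (by positivity)
    have h' : (a : ℝ) < 12 * ℓ ^ 2 + 1 := this
    nlinarith
  have ha12 : (12 : ℝ) ≤ a := by nlinarith
  have ha0 : (0 : ℝ) < a := by linarith
  have har : 12 * (Real.log r) ^ 2 ≤ a := by
    refine le_trans ?_ ha1
    have := pow_le_pow_left₀ hlogr0 hlogr 2
    linarith
  have htri : ∀ x y z, G.Adj x y → G.Adj y z → G.Adj x z → False := by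
    intro x y z hxy hyz hxz
    exact htf {x, y, z} (SimpleGraph.is3Clique_triple_iff.mpr ⟨hxy, hxz, hyz⟩)
  have hboost := boost (G := G) r a k hr3 har htri hcol
  rw [hr] at hboost
  -- parameters
  set n : ℝ := (Fintype.card V : ℝ) with hn
  set m : ℝ := (G.edgeFinset.card : ℝ) with hmdef
  have hn0 : 0 ≤ n := Nat.cast_nonneg _
  have hm0 : 0 ≤ m := Nat.cast_nonneg _
  set A := Real.log ((r : ℝ) / a) with hA
  set B := -Real.log (1 - 1 / r : ℝ) with hB
  have hxr0 : (0 : ℝ) < 1 - 1 / r := by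
    have : (1 : ℝ) / r ≤ 1 / 3 := one_div_le_one_div_of_le (by norm_num) hr3R
    linarith
  set ρ := (r : ℝ) / q with hρ
  have hρ0 : 0 < ρ := by positivity
  have hρ1 : ρ ≤ 1 := by rw [hρ, div_le_one hqpos]; exact hrq
  have hρε : ε ≤ ρ := by rw [hρ, le_div_iff₀ hqpos]; exact hrε
  have hτ0 : 0 ≤ ρ / β := by positivity
  have hτ1 : ρ / β ≤ 1 := by rw [div_le_one hβ0]; linarith
  obtain ⟨T, hT⟩ := exists_subset (G := G) (ρ / β) A B hτ0 hτ1
  have hbT := hboost T
  have hr1 : (0 : ℝ) < r - 1 := by linarith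
  -- lower bound for A
  set K := Real.log (1 / ε) + Real.log (13 * ℓ ^ 2) with hK
  have hAge : ℓ - K ≤ A := by
    have h1 : A = Real.log r - Real.log a := by
      rw [hA, Real.log_div hr0.ne' ha0.ne']
    have h2 : Real.log a ≤ Real.log (13 * ℓ ^ 2) := Real.log_le_log ha0 ha2
    have h3 : Real.log (ε * q) ≤ Real.log r := Real.log_le_log (by positivity) hrε
    rw [Real.log_mul hε.ne' hqpos.ne'] at h3
    have h4 : Real.log (1 / ε) = -Real.log ε := by rw [one_div, Real.log_inv]
    rw [h1, hK, h4]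
    linarith
  have hK0 : 0 ≤ K := by
    rw [hK]
    apply add_nonneg
    · apply Real.log_nonneg
      rw [le_div_iff₀ hε]; linarith
    · apply Real.log_nonneg
      nlinarith
  -- upper bound for B
  have hBle : B ≤ 1 / (r - 1) := by
    have h1 := Real.add_one_le_exp (1 / (r - 1 : ℝ))
    have h2 : 1 / (r - 1 : ℝ) + 1 = (1 - 1 / r : ℝ)⁻¹ := by
      have h3 : (1 - 1 / r : ℝ) = (r - 1) / r := by field_simp
      rw [h3, inv_div]
      field_simp
      ring
    rw [h2] at h1
    have h4 := Real.log_le_log (by positivity) h1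
    rw [Real.log_inv, Real.log_exp] at h4
    exact h4
  have hB0 : 0 ≤ B := by
    rw [hB]
    have : Real.log (1 - 1 / r : ℝ) ≤ 0 := by
      apply Real.log_nonpos hxr0.le
      have : (0 : ℝ) ≤ 1 / r := by positivity
      linarith
    linarith
  -- key inequality
  have hkey : n * ℓ - m / q ≤ ρ / β * n * A - (ρ / β) ^ 2 * m * B := by
    have hm' : m = β * (q * ℓ) * n / 2 := by linarith
    have h1 : (ρ / β) ^ 2 * m * B ≤ (ρ / β) ^ 2 * m * (1 / (r - 1)) :=
      mul_le_mul_of_nonneg_left hBle (by positivity)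
    have h2 : ρ / β * n * (ℓ - K) ≤ ρ / β * n * A :=
      mul_le_mul_of_nonneg_left hAge (by positivity)
    have h3 : (ρ / β) ^ 2 * m * (1 / (r - 1)) = n / (2 * β) * (ρ * ℓ * (r / (r - 1))) := by
      rw [hm', hρ]
      field_simp
    have h4 : m / q = n / (2 * β) * (β ^ 2 * ℓ) := by
      rw [hm']
      field_simp
    have h5 : n * ℓ = n / (2 * β) * (2 * β * ℓ) := by field_simp
    have h6 : ρ / β * n * (ℓ - K) = n / (2 * β) * (2 * ρ * (ℓ - K)) := by field_simp
    have h7 : 2 * β * ℓ - β ^ 2 * ℓ ≤ 2 * ρ * (ℓ - K) - ρ * ℓ * (r / (r - 1)) := by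
      have h8 : (r : ℝ) / (r - 1) = 1 + 1 / (r - 1) := by field_simp; ring
      have h9 : ρ * ℓ * (1 / (r - 1)) ≤ 1 := by
        rw [mul_one_div, div_le_one hr1]
        have : ρ * ℓ ≤ ℓ := by nlinarith
        linarith
      have h10 : ε ^ 3 ≤ ρ - 2 * β + β ^ 2 := by
        have h11 : ρ = 1 - k / q := by rw [hρ, hrR]; field_simp
        have h12 : (k : ℝ) / q ≤ (1 - ε) * (β - 1) ^ 2 := by
          rw [div_le_iff₀ hqpos]; exact hk
        have h13 : ε * (β - 1) ^ 2 ≤ ρ - 2 * β + β ^ 2 := by rw [h11]; nlinarith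
        have h14 : ε * ε ^ 2 ≤ ε * (β - 1) ^ 2 := mul_le_mul_of_nonneg_left hβsq' hε.le
        nlinarith
      have h15 : ε ^ 3 * ℓ ≤ (ρ - 2 * β + β ^ 2) * ℓ :=
        mul_le_mul_of_nonneg_right h10 (by linarith)
      have h16 : ρ * K ≤ K := by nlinarith
      rw [h8]
      nlinarith
    have h17 : 0 ≤ n / (2 * β) := by positivity
    have h18 := mul_le_mul_of_nonneg_left h7 h17
    calc n * ℓ - m / q = n / (2 * β) * (2 * β * ℓ - β ^ 2 * ℓ) := by rw [h5, h4]; ring
      _ ≤ n / (2 * β) * (2 * ρ * (ℓ - K) - ρ * ℓ * (r / (r - 1))) := h18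
      _ = ρ / β * n * (ℓ - K) - (ρ / β) ^ 2 * m * (1 / (r - 1)) := by rw [h6, h3]; ring
      _ ≤ _ := by linarith
  -- conclude
  have hq1 : (0 : ℝ) ≤ 1 - 1 / q := by
    have : (1 : ℝ) / q ≤ 1 := by
      rw [div_le_one hqpos]; linarith
    linarith
  have hL1 : (1 - 1 / q : ℝ) ^ G.edgeFinset.card ≤ Real.exp (-(m / q)) := by
    have h1 : (1 - 1 / q : ℝ) ≤ Real.exp (-(1 / q : ℝ)) := by
      have := Real.add_one_le_exp (-(1 / q : ℝ))
      linarith
    calc (1 - 1 / q : ℝ) ^ G.edgeFinset.card ≤ (Real.exp (-(1 / q : ℝ))) ^ G.edgeFinset.card :=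
          pow_le_pow_left₀ hq1 h1 _
      _ = Real.exp (-(m / q)) := by
          rw [← Real.exp_nat_mul]
          congr 1
          rw [hmdef]; ring
  have hL2 : (q : ℝ) ^ Fintype.card V = Real.exp (n * ℓ) := by
    rw [hℓ, mul_comm, Real.exp_mul, Real.exp_log hqpos, hn, Real.rpow_natCast]
  have hR1 : ((r : ℝ) / a) ^ T.card = Real.exp (T.card * A) := by
    rw [hA, mul_comm, Real.exp_mul, Real.exp_log (by positivity), Real.rpow_natCast]
  have hR2 : (1 - 1 / r : ℝ) ^ (ed G T).card = Real.exp (-((ed G T).card * B)) := by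
    have : -((ed G T).card * B) = Real.log (1 - 1 / r : ℝ) * ((ed G T).card : ℝ) := by
      rw [hB]; ring
    rw [this, Real.exp_mul, Real.exp_log hxr0, Real.rpow_natCast]
  calc (1 - 1 / q : ℝ) ^ G.edgeFinset.card * (q : ℝ) ^ Fintype.card V
      ≤ Real.exp (-(m / q)) * Real.exp (n * ℓ) := by
        rw [hL2]
        exact mul_le_mul_of_nonneg_right hL1 (Real.exp_nonneg _)
    _ = Real.exp (n * ℓ - m / q) := by rw [← Real.exp_add]; congr 1; ring
    _ ≤ Real.exp (T.card * A - (ed G T).card * B) := by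
        apply Real.exp_le_exp.mpr
        exact hkey.trans hT
    _ = ((r : ℝ) / a) ^ T.card * (1 - 1 / r : ℝ) ^ (ed G T).card := by
        rw [hR1, hR2, ← Real.exp_add]; congr 1
    _ ≤ _ := hbT

end Pool.Agent.Helper23.TriFreeCount
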