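import Pool.Agent.Helper23.TriFreeCount

/-!
Colouring a part with a reserved palette and counting on the rest.
-/

namespace Pool.Agent.Helper23.TriFreeCount

open Finset

section count

variable {V : Type*} [Fintype V] [DecidableEq V] {G : SimpleGraph V} [DecidableRel G.Adj]

/-- number of proper colourings as a filter -/
lemma card_coloring {C : Type*} [Fintype C] [DecidableEq C] :
    Nat.card (G.Coloring C) =
      (Finset.univ.filter (fun f : V → C => ∀ u v, G.Adj u v → f u ≠ f v)).card := by
  rw [← Fintype.card_subtype, ← Nat.card_eq_fintype_card]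
  apply Nat.card_congr
  refine ⟨fun f => ⟨f, fun u v h => f.valid h⟩, fun f => SimpleGraph.Coloring.mk f.1
    (fun {u v} h => f.2 u v h), ?_, ?_⟩
  · intro f; rfl
  · intro f; rfl

lemma card_coloring_congr {C C' : Type*} [Fintype C] [DecidableEq C] [Fintype C']
    [DecidableEq C'] (h : Fintype.card C = Fintype.card C') :
    Nat.card (G.Coloring C) = Nat.card (G.Coloring C') := by
  have e : C ≃ C' := Fintype.equivOfCardEq h
  rw [card_coloring, card_coloring]
  apply Finset.card_bij (fun f _ => fun v => e (f v))
  · intro f hf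
    rw [mem_filter] at hf ⊢
    refine ⟨mem_univ _, fun u v huv => ?_⟩
    intro h
    exact hf.2 u v huv (e.injective h)
  · intro f _ g _ h
    funext v
    exact e.injective (congrFun h v)
  · intro f hf
    refine ⟨fun v => e.symm (f v), ?_, ?_⟩
    · rw [mem_filter] at hf ⊢
      refine ⟨mem_univ _, fun u v huv => ?_⟩
      intro h
      exact hf.2 u v huv (e.symm.injective h)
    · funext v; simp

/-- Combining a colouring of `G[T]` from `r` colours with a proper `k`-colouring `κ` of the rest,
each class of `κ` owning `a` reserved colours. -/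
theorem master_count {r k a : ℕ} (ha : 0 < a) (T : Finset V) (κ : V → Fin k)
    (hκ : ∀ u v, u ∉ T → v ∉ T → G.Adj u v → κ u ≠ κ v) :
    ((P G r T).card : ℝ) * a ^ (Fintype.card V - T.card) ≤
      r ^ (Fintype.card V - T.card) * (Nat.card (G.Coloring (Fin (r + k * a))) : ℝ) := by
  classical
  have hcong : Nat.card (G.Coloring (Fin (r + k * a))) =
      Nat.card (G.Coloring (Fin r ⊕ (Fin k × Fin a))) := by
    apply card_coloring_congr
    simp
  rw [hcong, card_coloring]
  set Tgt := (Finset.univ.filter (fun f : V → Fin r ⊕ (Fin k × Fin a) =>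
    ∀ u v, G.Adj u v → f u ≠ f v)) with hTgt
  let Θ : (V → Fin r) × (V → Fin a) → (V → Fin r ⊕ (Fin k × Fin a)) := fun p v =>
    if v ∈ T then Sum.inl (p.1 v) else Sum.inr (κ v, p.2 v)
  let Src : Finset ((V → Fin r) × (V → Fin a)) := (P G r T) ×ˢ Finset.univ
  have hmap : ∀ p ∈ Src, Θ p ∈ Tgt := by
    rintro ⟨f, i⟩ hp
    simp only [Src, mem_product, mem_univ, and_true] at hp
    rw [hTgt, mem_filter]
    refine ⟨mem_univ _, fun u v huv => ?_⟩
    simp only [Θ]
    by_cases hu : u ∈ T
    · by_cases hv : v ∈ T
      · rw [if_pos hu, if_pos hv]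
        intro h
        exact (mem_P.mp hp) u hu v hv huv (Sum.inl_injective h)
      · rw [if_pos hu, if_neg hv]
        exact Sum.inl_ne_inr
    · by_cases hv : v ∈ T
      · rw [if_neg hu, if_pos hv]
        exact Sum.inr_ne_inl
      · rw [if_neg hu, if_neg hv]
        intro h
        have := Sum.inr_injective h
        exact hκ u v hu hv huv (Prod.mk.inj this).1
  have hfib : ∀ g ∈ Tgt, (Src.filter (fun p => Θ p = g)).card ≤
      r ^ (Fintype.card V - T.card) * a ^ T.card := by
    intro g _
    by_cases hne : (Src.filter (fun p => Θ p = g)).Nonempty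
    · obtain ⟨⟨f0, i0⟩, hp0⟩ := hne
      rw [mem_filter] at hp0
      have h0 := hp0.2
      have hsub : Src.filter (fun p => Θ p = g) ⊆
          (Fintype.piFinset (fun v => if v ∈ T then {f0 v} else (Finset.univ : Finset (Fin r)))) ×ˢ
          (Fintype.piFinset (fun v => if v ∈ T then (Finset.univ : Finset (Fin a)) else {i0 v})) := by
        rintro ⟨f, i⟩ hp
        rw [mem_filter] at hp
        have h1 := hp.2
        rw [← h0] at h1
        rw [mem_product, Fintype.mem_piFinset, Fintype.mem_piFinset]
        constructor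
        · intro v
          by_cases hv : v ∈ T
          · rw [if_pos hv, mem_singleton]
            have := congrFun h1 v
            simp only [Θ, hv, if_true] at this
            exact Sum.inl_injective this
          · rw [if_neg hv]; exact mem_univ _
        · intro v
          by_cases hv : v ∈ T
          · rw [if_pos hv]; exact mem_univ _
          · rw [if_neg hv, mem_singleton]
            have := congrFun h1 v
            simp only [Θ, hv, if_false] at this
            exact (Prod.mk.inj (Sum.inr_injective this)).2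
      refine (Finset.card_le_card hsub).trans ?_
      rw [card_product, Fintype.card_piFinset, Fintype.card_piFinset]
      have e1 : ∏ v, (if v ∈ T then ({f0 v} : Finset (Fin r)) else Finset.univ).card =
          r ^ (Fintype.card V - T.card) := by
        have : ∀ v, (if v ∈ T then ({f0 v} : Finset (Fin r)) else Finset.univ).card =
            if v ∈ T then 1 else r := by
          intro v; split_ifs <;> simp
        simp_rw [this]
        rw [Finset.prod_ite]
        simp only [prod_const_one, prod_const, one_mul]
        congr 1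
        rw [← Finset.compl_filter, card_compl]
        congr 2
        ext v; simp
      have e2 : ∏ v, (if v ∈ T then (Finset.univ : Finset (Fin a)) else {i0 v}).card =
          a ^ T.card := by
        have : ∀ v, (if v ∈ T then (Finset.univ : Finset (Fin a)) else {i0 v}).card =
            if v ∈ T then a else 1 := by
          intro v; split_ifs <;> simp
        simp_rw [this]
        rw [Finset.prod_ite]
        simp only [prod_const_one, prod_const, mul_one]
        congr 2
        ext v; simp
      rw [e1, e2]
    · rw [Finset.not_nonempty_iff_eq_empty] at hne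
      rw [hne]
      simp
  have hcard := Finset.card_le_mul_card_image_of_maps_to (f := Θ) (s := Src) (t := Tgt) hmap
    (r ^ (Fintype.card V - T.card) * a ^ T.card) hfib
  have hSrc : Src.card = (P G r T).card * a ^ Fintype.card V := by
    simp [Src, card_product]
  rw [hSrc] at hcard
  have hcard' : ((P G r T).card : ℝ) * a ^ Fintype.card V ≤
      (r ^ (Fintype.card V - T.card) * a ^ T.card) * (Tgt.card : ℝ) := by
    exact_mod_cast hcard
  have hle : T.card ≤ Fintype.card V := Finset.card_le_univ T
  have hapos : (0 : ℝ) < (a : ℝ) ^ T.card := by positivity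
  have e3 : (a : ℝ) ^ Fintype.card V = a ^ (Fintype.card V - T.card) * a ^ T.card := by
    rw [← pow_add, Nat.sub_add_cancel hle]
  rw [e3] at hcard'
  have : (((P G r T).card : ℝ) * a ^ (Fintype.card V - T.card)) * a ^ T.card ≤
      (r ^ (Fintype.card V - T.card) * (Tgt.card : ℝ)) * a ^ T.card := by
    calc _ = ((P G r T).card : ℝ) * (a ^ (Fintype.card V - T.card) * a ^ T.card) := by ring
      _ ≤ _ := hcard'
      _ = _ := by ring
  exact le_of_mul_le_mul_right this hapos

lemma ed_card_le (T : Finset V) (D : ℕ) (hD : ∀ v ∈ T, (nb G T v).card ≤ D) :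
    (ed G T).card ≤ T.card * D := by
  have key : ∀ n : ℕ, ∀ U ⊆ T, U.card = n → (ed G U).card ≤ U.card * D := by
    intro n
    induction n with
    | zero =>
      intro U _ hU
      rw [Finset.card_eq_zero] at hU
      subst hU
      have h1 : ed G (∅ : Finset V) = ∅ := by
        ext e
        induction e with
        | _ x y =>
          simp only [ed, mem_filter, Sym2.mem_iff, forall_eq_or_imp, forall_eq]
          constructor
          · rintro ⟨_, h, _⟩
            exact absurd h (Finset.notMem_empty _)
          · intro h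
            exact absurd h (Finset.notMem_empty _)
      rw [h1]
      simp
    | succ n ih =>
      intro U hUT hU
      have hne : U.Nonempty := by
        rw [← Finset.card_pos, hU]; omega
      obtain ⟨v, hv⟩ := hne
      have h2 := ih (U.erase v) ((Finset.erase_subset v U).trans hUT)
        (by rw [Finset.card_erase_of_mem hv, hU]; rfl)
      have h3 : (ed G U).card = (ed G (U.erase v)).card + (nb G (U.erase v) v).card := by
        rw [← ed_insert (Finset.notMem_erase v U), Finset.insert_erase hv]
      have h4 : U.card = (U.erase v).card + 1 := by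
        rw [Finset.card_erase_of_mem hv, hU]; rfl
      have h5 : (nb G (U.erase v) v).card ≤ D := by
        refine le_trans (Finset.card_le_card ?_) (hD v (hUT hv))
        intro w hw
        rw [mem_nb, mem_erase] at hw
        rw [mem_nb]
        exact ⟨hUT hw.1.2, hw.2⟩
      rw [h3, h4, Nat.add_mul, one_mul]
      omega
  exact key _ T (Finset.Subset.refl T) rfl

/-- The optimal vertex subset. -/
lemma exists_opt (q a : ℕ) (hq : 2 ≤ q) (ha : 0 < a) :
    ∃ T : Finset V,
      (∀ v ∈ T, (a : ℝ) ≤ q * (1 - 1 / q : ℝ) ^ (nb G T v).card) ∧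
      (∀ v, v ∉ T → q * (1 - 1 / q : ℝ) ^ (G.degree v) ≤ a) ∧
      (q : ℝ) ^ (Fintype.card V) * (1 - 1 / q : ℝ) ^ G.edgeFinset.card ≤
        a ^ (Fintype.card V - T.card) * q ^ T.card * (1 - 1 / q : ℝ) ^ (ed G T).card := by
  have hqR : (2 : ℝ) ≤ q := by exact_mod_cast hq
  have hx0 : (0 : ℝ) < 1 - 1 / q := by
    have : (1 : ℝ) / q ≤ 1 / 2 := by
      apply one_div_le_one_div_of_le (by norm_num) hqR
    linarith
  have hx1 : (1 : ℝ) - 1 / q ≤ 1 := by
    have : (0 : ℝ) ≤ 1 / q := by positivity
    linarith
  set x : ℝ := 1 - 1 / q with hx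
  have haR : (0 : ℝ) < a := by exact_mod_cast ha
  have hq0 : (0 : ℝ) < q := by linarith
  obtain ⟨T, _, hT⟩ := Finset.exists_max_image (Finset.univ : Finset (Finset V))
    (fun T => (a : ℝ) ^ (Fintype.card V - T.card) * q ^ T.card * x ^ (ed G T).card)
    ⟨∅, Finset.mem_univ _⟩
  refine ⟨T, ?_, ?_, ?_⟩
  · intro v hv
    have h := hT (T.erase v) (Finset.mem_univ _)
    have hnb : nb G T v = nb G (T.erase v) v := by
      ext w
      rw [mem_nb, mem_nb, mem_erase]
      constructor
      · rintro ⟨h1, h2⟩
        exact ⟨⟨(G.ne_of_adj h2).symm, h1⟩, h2⟩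
      · rintro ⟨⟨_, h1⟩, h2⟩
        exact ⟨h1, h2⟩
    have h3 : (ed G T).card = (ed G (T.erase v)).card + (nb G T v).card := by
      rw [hnb, ← ed_insert (Finset.notMem_erase v T), Finset.insert_erase hv]
    have hpos : 0 < T.card := Finset.card_pos.mpr ⟨v, hv⟩
    have hle : T.card ≤ Fintype.card V := Finset.card_le_univ T
    have h4 : (T.erase v).card = T.card - 1 := Finset.card_erase_of_mem hv
    have h5 : Fintype.card V - (T.erase v).card = (Fintype.card V - T.card) + 1 := by omega
    have h6 : T.card = (T.erase v).card + 1 := by omega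
    set C : ℝ := (a : ℝ) ^ (Fintype.card V - T.card) * q ^ (T.erase v).card *
        x ^ (ed G (T.erase v)).card with hC
    have hc : 0 < C := by positivity
    have e1 : (a : ℝ) ^ (Fintype.card V - (T.erase v).card) * q ^ (T.erase v).card *
        x ^ (ed G (T.erase v)).card = C * a := by
      rw [h5, hC, pow_succ]; ring
    have e2 : (a : ℝ) ^ (Fintype.card V - T.card) * q ^ T.card * x ^ (ed G T).card =
        C * (q * x ^ (nb G T v).card) := by
      have e3 : (q : ℝ) ^ T.card = q ^ (T.erase v).card * q := by
        rw [← pow_succ, ← h6]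
      rw [h3, pow_add, e3, hC]; ring
    have h7 : C * a ≤ C * (q * x ^ (nb G T v).card) := by
      rw [← e1, ← e2]; exact h
    exact le_of_mul_le_mul_left h7 hc
  · intro v hv
    have h := hT (insert v T) (Finset.mem_univ _)
    have h3 : (ed G (insert v T)).card = (ed G T).card + (nb G T v).card := ed_insert hv
    have h4 : (insert v T).card = T.card + 1 := Finset.card_insert_of_notMem hv
    have hle : (insert v T).card ≤ Fintype.card V := Finset.card_le_univ _
    have h5 : Fintype.card V - T.card = (Fintype.card V - (insert v T).card) + 1 := by omega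
    set C : ℝ := (a : ℝ) ^ (Fintype.card V - (insert v T).card) * q ^ T.card *
        x ^ (ed G T).card with hC
    have hc : 0 < C := by positivity
    have e1 : (a : ℝ) ^ (Fintype.card V - (insert v T).card) * q ^ (insert v T).card *
        x ^ (ed G (insert v T)).card = C * (q * x ^ (nb G T v).card) := by
      rw [h3, hC, pow_add]
      have e3 : (q : ℝ) ^ (insert v T).card = q ^ T.card * q := by
        rw [h4, pow_succ]
      rw [e3]; ring
    have e2 : (a : ℝ) ^ (Fintype.card V - T.card) * q ^ T.card * x ^ (ed G T).card =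
        C * a := by
      rw [h5, pow_succ, hC]; ring
    have h7 : C * (q * x ^ (nb G T v).card) ≤ C * a := by
      rw [← e1, ← e2]; exact h
    have h8 := le_of_mul_le_mul_left h7 hc
    refine le_trans ?_ h8
    apply mul_le_mul_of_nonneg_left _ hq0.le
    apply pow_le_pow_of_le_one hx0.le hx1
    rw [← SimpleGraph.card_neighborFinset_eq_degree]
    apply Finset.card_le_card
    intro w hw
    rw [mem_nb] at hw
    simpa using hw.2
  · have h := hT Finset.univ (Finset.mem_univ _)
    rw [ed_univ, Finset.card_univ, Nat.sub_self, pow_zero, one_mul] at h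
    exact h

/-- Reserved palette, in terms of colourability of the induced subgraph. -/
lemma reserve {q r k a : ℕ} (ha : 0 < a) (T : Finset V)
    (h : (G.induce {v | v ∉ T}).Colorable k) (hr : r + k * a = q) :
    ((P G r T).card : ℝ) * a ^ (Fintype.card V - T.card) ≤
      r ^ (Fintype.card V - T.card) * (Nat.card (G.Coloring (Fin q)) : ℝ) := by
  classical
  subst hr
  obtain ⟨C⟩ := h
  rcases Nat.eq_zero_or_pos k with hk | hk
  · subst hk
    have hT : T = Finset.univ := by
      ext v
      simp only [mem_univ, iff_true]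
      by_contra hv
      exact (C ⟨v, hv⟩).elim0
    subst hT
    rw [Finset.card_univ, Nat.sub_self, pow_zero, pow_zero, mul_one, one_mul, card_coloring]
    have : P G r Finset.univ = (Finset.univ.filter
        (fun f : V → Fin (r + 0 * a) => ∀ u v, G.Adj u v → f u ≠ f v)).map
          ⟨fun f v => Fin.cast (by simp) (f v), by
            intro f g h
            funext v
            have := congrFun h v
            simpa using this⟩ := by
      ext f
      rw [mem_P, mem_map]
      constructor
      · intro h
        refine ⟨fun v => Fin.cast (by simp) (f v), ?_, ?_⟩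
        · rw [mem_filter]
          refine ⟨mem_univ _, fun u v huv hh => ?_⟩
          apply h u (mem_univ _) v (mem_univ _) huv
          have := congrArg Fin.val hh
          exact Fin.ext (by simpa using this)
        · funext v
          exact Fin.ext rfl
      · rintro ⟨g, hg, rfl⟩ u _ v _ huv hh
        rw [mem_filter] at hg
        apply hg.2 u v huv
        have h3 : ((Fin.cast (by simp) (g u) : Fin r) : ℕ) = ((Fin.cast (by simp) (g v) : Fin r) : ℕ) :=
          congrArg Fin.val hh
        exact Fin.ext h3
    rw [this, card_map]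
  · let κ : V → Fin k := fun v => if h : v ∉ T then C ⟨v, h⟩ else ⟨0, hk⟩
    apply master_count ha T κ
    intro u v hu hv huv
    simp only [κ, hu, hv, not_false_eq_true, dite_true]
    exact C.valid huv

/-- Explicit form: only the vertices with at most `a` expected available colours need a
`k`-colouring. -/
theorem explicit_bound (q a k : ℕ) (hq : 3 ≤ q) (ha : 0 < a)
    (htri : ∀ x y z, G.Adj x y → G.Adj y z → G.Adj x z → False)
    (hcol : (G.induce {v | q * (1 - 1 / q : ℝ) ^ (G.degree v) ≤ a}).Colorable k)
    (hE : 20 * ((Real.log q) ^ 2 / a + k * a * Real.log q / q) ≤ 1) :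
    (1 - 1 / q : ℝ) ^ G.edgeFinset.card *
      ((1 - 20 * ((Real.log q) ^ 2 / a + k * a * Real.log q / q)) * q) ^ Fintype.card V ≤
      (Nat.card (G.Coloring (Fin q)) : ℝ) := by
  classical
  set L := Real.log q with hLdef
  set E := 20 * (L ^ 2 / a + k * a * L / q) with hEdef
  have hqR : (3 : ℝ) ≤ q := by exact_mod_cast hq
  have hq0 : (0 : ℝ) < q := by linarith
  have haR : (1 : ℝ) ≤ a := by exact_mod_cast ha
  have ha0 : (0 : ℝ) < a := by linarith
  have hkR : (0 : ℝ) ≤ k := Nat.cast_nonneg k
  have hL1 : 1 ≤ L := by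
    rw [hLdef, Real.le_log_iff_exp_le hq0]
    have := Real.exp_one_lt_d9
    linarith
  have hA1' : 0 ≤ L ^ 2 / a := by positivity
  have hA2' : 0 ≤ k * a * L / q := by positivity
  have hA1 : L ^ 2 / a ≤ 1 / 20 := by linarith
  have hA2 : k * a * L / q ≤ 1 / 20 := by linarith
  have hA3 : (k * a : ℝ) / q ≤ k * a * L / q := by
    apply div_le_div_of_nonneg_right _ hq0.le
    have : (0 : ℝ) ≤ k * a := by positivity
    nlinarith
  have hA3' : (0 : ℝ) ≤ (k * a : ℝ) / q := by positivity
  -- `r`
  have hka : (k * a : ℝ) ≤ q / 20 := by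
    have : (k * a : ℝ) / q ≤ 1 / 20 := hA3.trans hA2
    rw [div_le_iff₀ hq0] at this
    linarith
  have hkaN : k * a ≤ q := by
    have : ((k * a : ℕ) : ℝ) ≤ (q : ℝ) := by
      push_cast
      linarith
    exact_mod_cast this
  obtain ⟨r, hr⟩ : ∃ r, r + k * a = q := ⟨q - k * a, Nat.sub_add_cancel hkaN⟩
  have hrR : (r : ℝ) = q - k * a := by
    have : ((r + k * a : ℕ) : ℝ) = (q : ℝ) := by rw [hr]
    push_cast at this
    linarith
  have hr1 : (19 / 20 : ℝ) * q ≤ r := by rw [hrR]; linarith
  have hr2R : (2 : ℝ) < r := by linarith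
  have hr2 : 2 ≤ r := by
    have : (2 : ℝ) ≤ r := hr2R.le
    exact_mod_cast this
  have hr0 : (0 : ℝ) < r := by linarith
  set x : ℝ := 1 - 1 / q with hx
  have hx0 : 0 < x := by
    have : (1 : ℝ) / q ≤ 1 / 3 := by
      apply one_div_le_one_div_of_le (by norm_num) hqR
    rw [hx]; linarith
  have hx1 : x ≤ 1 := by
    have : (0 : ℝ) ≤ 1 / q := by positivity
    rw [hx]; linarith
  obtain ⟨T, hT1, hT2, hT3⟩ := exists_opt (G := G) q a (by omega) ha
  rw [← hx] at hT1 hT2 hT3
  -- colouring of the complement
  have hcolT : (G.induce {v | v ∉ T}).Colorable k := by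
    obtain ⟨C⟩ := hcol
    refine ⟨SimpleGraph.Coloring.mk (fun v => C ⟨v.1, hT2 v.1 v.2⟩) ?_⟩
    intro u v huv
    exact C.valid huv
  have hres := reserve (q := q) (r := r) (k := k) (a := a) ha T hcolT hr
  -- maximal degree in T
  set D := T.sup (fun v => (nb G T v).card) with hDdef
  have hD : ∀ v ∈ T, (nb G T v).card ≤ D := fun v hv =>
    Finset.le_sup (f := fun v => (nb G T v).card) hv
  have hDa : D = 0 ∨ (a : ℝ) ≤ q * x ^ D := by
    by_cases hT : T.Nonempty
    · right
      obtain ⟨v, hv, hv'⟩ := Finset.exists_mem_eq_sup T hT (fun v => (nb G T v).card)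
      rw [hDdef, hv']
      exact hT1 v hv
    · left
      rw [Finset.not_nonempty_iff_eq_empty] at hT
      rw [hDdef, hT, Finset.sup_empty]
      rfl
  have hDL : (D : ℝ) / q ≤ L := by
    rcases hDa with h0 | h0
    · rw [h0]
      simp only [Nat.cast_zero, zero_div]
      linarith
    · have h1 : x ≤ Real.exp (-(1 / q : ℝ)) := by
        have := Real.add_one_le_exp (-(1 / q : ℝ))
        rw [hx]; linarith
      have h2 : x ^ D ≤ Real.exp (-(D / q : ℝ)) := by
        calc x ^ D ≤ (Real.exp (-(1 / q : ℝ))) ^ D := pow_le_pow_left₀ hx0.le h1 D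
          _ = Real.exp (-(D / q : ℝ)) := by
            rw [← Real.exp_nat_mul]
            congr 1
            ring
      have h3 : 1 ≤ q * Real.exp (-(D / q : ℝ)) := by
        calc (1 : ℝ) ≤ a := haR
          _ ≤ q * x ^ D := h0
          _ ≤ _ := mul_le_mul_of_nonneg_left h2 hq0.le
      have h4 : Real.exp (D / q : ℝ) ≤ q := by
        rw [Real.exp_neg, ← div_eq_mul_inv, le_div_iff₀ (Real.exp_pos _)] at h3
        linarith
      rw [hLdef, Real.le_log_iff_exp_le hq0]
      exact h4
  -- the parameter `y`
  set y : ℝ := k * a / (r * (q - 1)) with hy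
  have hq1 : (2 / 3 : ℝ) * q ≤ q - 1 := by linarith
  have hq1' : (0 : ℝ) < q - 1 := by linarith
  have hy0 : 0 ≤ y := by positivity
  have hxr : (1 - 1 / r : ℝ) = x * (1 - y) := by
    rw [hx, hy]
    have : (k * a : ℝ) = q - r := by rw [hrR]; ring
    rw [this]
    field_simp
    ring
  have hDy : D * y ≤ 8 / 5 * (k * a * L / q) := by
    have h1 : (D : ℝ) ≤ q * L := by
      rw [div_le_iff₀ hq0] at hDL
      linarith
    have h2 : y ≤ k * a / ((19 / 20 * q) * (2 / 3 * q)) := by
      rw [hy]
      apply div_le_div_of_nonneg_left (by positivity) (by positivity)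
      apply mul_le_mul hr1 hq1 (by positivity) hr0.le
    calc D * y ≤ (q * L) * (k * a / ((19 / 20 * q) * (2 / 3 * q))) :=
          mul_le_mul h1 h2 hy0 (by positivity)
      _ = 30 / 19 * (k * a * L / q) := by
          field_simp
          ring
      _ ≤ 8 / 5 * (k * a * L / q) := by
          apply mul_le_mul_of_nonneg_right _ hA2'
          norm_num
  have hy1 : y ≤ 1 := by
    have h2 : y ≤ k * a / ((19 / 20 * q) * (2 / 3 * q)) := by
      rw [hy]
      apply div_le_div_of_nonneg_left (by positivity) (by positivity)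
      apply mul_le_mul hr1 hq1 (by positivity) hr0.le
    refine h2.trans ?_
    rw [div_le_one (by positivity)]
    nlinarith
  have hDy0 : 0 ≤ D * y := by positivity
  have hDy1 : D * y ≤ 2 / 25 := by linarith
  -- `δ`
  set δ : ℝ := 10 * (L ^ 2 / a) with hδ
  have hδ0 : 0 ≤ δ := by positivity
  have hδ1 : δ ≤ 1 / 2 := by rw [hδ]; linarith
  have hbern : 1 - D * y ≤ (1 - y) ^ D := by
    have := one_add_mul_le_pow (a := -y) (by linarith) D
    calc 1 - D * y = 1 + D * (-y) := by ring
      _ ≤ (1 + -y) ^ D := this
      _ = _ := by ring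
  have hcond : (D / r : ℝ) * (2 + D / r) ≤ δ * (1 - δ) * (r * (1 - 1 / r : ℝ) ^ D) := by
    rcases hDa with h0 | h0
    · rw [h0]
      simp only [Nat.cast_zero, zero_div, zero_mul, pow_zero, mul_one]
      apply mul_nonneg (mul_nonneg hδ0 (by linarith)) hr0.le
    · have h1 : (D : ℝ) / r ≤ 20 / 19 * L := by
        rw [div_le_iff₀ hr0]
        rw [div_le_iff₀ hq0] at hDL
        have : L * q ≤ 20 / 19 * L * r := by
          have : L * (19 / 20 * q) ≤ L * r := mul_le_mul_of_nonneg_left hr1 (by linarith)
          linarith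
        linarith
      have h1' : (0 : ℝ) ≤ D / r := by positivity
      have h2 : (D / r : ℝ) * (2 + D / r) ≤ (20 / 19 * L) * (2 * L + 20 / 19 * L) := by
        apply mul_le_mul h1 _ (by positivity) (by positivity)
        linarith
      have h3 : (17 / 20 : ℝ) * a ≤ r * (1 - 1 / r : ℝ) ^ D := by
        rw [hxr, mul_pow]
        calc (17 / 20 : ℝ) * a ≤ (19 / 20) * a * (1 - 2 / 25) := by linarith
          _ ≤ (19 / 20) * (q * x ^ D) * (1 - D * y) := by
              apply mul_le_mul _ (by linarith) (by norm_num) (by positivity)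
              linarith
          _ ≤ (19 / 20) * (q * x ^ D) * (1 - y) ^ D := by
              apply mul_le_mul_of_nonneg_left hbern (by positivity)
          _ = (19 / 20 * q) * (x ^ D * (1 - y) ^ D) := by ring
          _ ≤ r * (x ^ D * (1 - y) ^ D) := by
              apply mul_le_mul_of_nonneg_right hr1
              apply mul_nonneg (by positivity)
              exact pow_nonneg (by linarith) D
      have h4 : δ * (1 / 2) * (17 / 20 * a) ≤ δ * (1 - δ) * (r * (1 - 1 / r : ℝ) ^ D) := by
        apply mul_le_mul _ h3 (by positivity)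
          (mul_nonneg hδ0 (by linarith))
        apply mul_le_mul_of_nonneg_left _ hδ0
        linarith
      have h5 : δ * (1 / 2) * (17 / 20 * a) = 17 / 4 * L ^ 2 := by
        rw [hδ]
        field_simp
        ring
      have h6 : (20 / 19 * L) * (2 * L + 20 / 19 * L) ≤ 17 / 4 * L ^ 2 := by
        nlinarith [sq_nonneg L]
      linarith
  have hP := card_P_ge (G := G) (q := r) T D δ hr2 (by linarith) htri hD hcond
  -- combine
  set n := Fintype.card V with hn
  set t := T.card with ht
  have htn : t ≤ n := Finset.card_le_univ T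
  set c : ℝ := (Nat.card (G.Coloring (Fin q)) : ℝ) with hc
  have h1 : (1 - δ) ^ t * (1 - 1 / r : ℝ) ^ (ed G T).card * r ^ t * a ^ (n - t) ≤ c := by
    have h2 : ((1 - δ) ^ t * (1 - 1 / r : ℝ) ^ (ed G T).card * r ^ n) * a ^ (n - t) ≤
        r ^ (n - t) * c :=
      (mul_le_mul_of_nonneg_right hP (by positivity)).trans hres
    have h3 : (r : ℝ) ^ n = r ^ t * r ^ (n - t) := by
      rw [← pow_add, Nat.add_sub_cancel' htn]
    rw [h3] at h2
    have h4 : (r : ℝ) ^ (n - t) * ((1 - δ) ^ t * (1 - 1 / r : ℝ) ^ (ed G T).card * r ^ t *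
        a ^ (n - t)) ≤ r ^ (n - t) * c := by
      calc _ = ((1 - δ) ^ t * (1 - 1 / r : ℝ) ^ (ed G T).card * (r ^ t * r ^ (n - t))) *
            a ^ (n - t) := by ring
        _ ≤ _ := h2
    exact le_of_mul_le_mul_left h4 (by positivity)
  have hedge : (1 - D * y) ^ t * x ^ (ed G T).card ≤ (1 - 1 / r : ℝ) ^ (ed G T).card := by
    rw [hxr, mul_pow, mul_comm]
    apply mul_le_mul_of_nonneg_left _ (by positivity)
    have h2 : (ed G T).card ≤ D * t := by
      rw [mul_comm]; exact ed_card_le T D hD
    calc (1 - D * y) ^ t ≤ ((1 - y) ^ D) ^ t :=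
          pow_le_pow_left₀ (by linarith) hbern t
      _ = (1 - y) ^ (D * t) := by rw [← pow_mul]
      _ ≤ (1 - y) ^ (ed G T).card :=
          pow_le_pow_of_le_one (by linarith) (by linarith) h2
  have hrq : (r : ℝ) = (1 - k * a / q) * q := by
    rw [hrR]; field_simp
  have hfac : 1 - E ≤ (1 - δ) * (1 - k * a / q) * (1 - D * y) := by
    have e1 : (1 - δ) * (1 - k * a / q) ≥ 1 - δ - k * a / q := by nlinarith
    have e2 : (1 - δ) * (1 - k * a / q) * (1 - D * y) ≥ (1 - δ) * (1 - k * a / q) - D * y := by
      have : (1 - δ) * (1 - k * a / q) ≤ 1 := by nlinarith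
      nlinarith
    rw [hEdef]
    linarith
  have hE0 : 0 ≤ 1 - E := by linarith
  have hE1 : 1 - E ≤ 1 := by
    have : 0 ≤ E := by rw [hEdef]; positivity
    linarith
  calc x ^ G.edgeFinset.card * ((1 - E) * q) ^ n
      = (1 - E) ^ n * (q ^ n * x ^ G.edgeFinset.card) := by rw [mul_pow]; ring
    _ ≤ (1 - E) ^ t * (a ^ (n - t) * q ^ t * x ^ (ed G T).card) := by
        apply mul_le_mul (pow_le_pow_of_le_one hE0 hE1 htn) hT3 (by positivity)
          (pow_nonneg hE0 t)
    _ ≤ ((1 - δ) * (1 - k * a / q) * (1 - D * y)) ^ t *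
          (a ^ (n - t) * q ^ t * x ^ (ed G T).card) := by
        apply mul_le_mul_of_nonneg_right (pow_le_pow_left₀ hE0 hfac t) (by positivity)
    _ = (1 - δ) ^ t * ((1 - D * y) ^ t * x ^ (ed G T).card) * ((1 - k * a / q) * q) ^ t *
          a ^ (n - t) := by
        rw [mul_pow, mul_pow, mul_pow]; ring
    _ = (1 - δ) ^ t * ((1 - D * y) ^ t * x ^ (ed G T).card) * r ^ t * a ^ (n - t) := by
        rw [← hrq]
    _ ≤ (1 - δ) ^ t * (1 - 1 / r : ℝ) ^ (ed G T).card * r ^ t * a ^ (n - t) := by
        apply mul_le_mul_of_nonneg_right _ (by positivity)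
        apply mul_le_mul_of_nonneg_right _ (by positivity)
        apply mul_le_mul_of_nonneg_left hedge
        exact pow_nonneg (by linarith) t
    _ ≤ c := h1

end count

end Pool.Agent.Helper23.TriFreeCount
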